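import Mathlib
import Pool.Agent.H91.LD.Near
import Pool.Agent.H85.LD.NDefs
import Pool.Agent.H47.SF.Hom
import Pool.Agent.H26.SF.WdS

/-!
SHARP RATE (MP_8f2e1c_an): bridge between the charts `sc d b P u` of polynomials and homogeneous coordinates.

`cvp d P Q` is the pair of coefficient vectors; `wB b = (b,1)/√(1+|b|²)`, `wC b = (1,-conj b)/√(1+|b|²)`;
`FF (cvp d P Q) (wB b + (u/√d) • wC b) = (sc d b P u, sc d b Q u)`; `pt d b u` is the unit vector of the point `u` of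
the chart `b`.
-/

set_option autoImplicit false

open Polynomial ComplexConjugate Filter Topology

namespace Pool.H91.SR

open Pool.H70.SF Pool.Agent.H85.LD Pool.Agent.H91.LD

/-- the pair of coefficient vectors of two polynomials -/
noncomputable def cvp (d : ℕ) (P Q : ℂ[X]) : CV d :=
  (fun k => P.coeff (k : ℕ), fun k => Q.coeff (k : ℕ))

/-- the scale `√(1 + |b|²)` -/
noncomputable def rb (b : ℂ) : ℝ := √(1 + ‖b‖ ^ 2)

theorem rb_pos (b : ℂ) : 0 < rb b := Real.sqrt_pos.2 (by positivity)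

theorem rb_sq (b : ℂ) : rb b ^ 2 = 1 + ‖b‖ ^ 2 := Real.sq_sqrt (by positivity)

/-- the unit vector of the centre -/
noncomputable def wB (b : ℂ) : ℂ × ℂ := (b / (rb b : ℂ), 1 / (rb b : ℂ))

/-- the orthogonal unit vector -/
noncomputable def wC (b : ℂ) : ℂ × ℂ := (1 / (rb b : ℂ), -conj b / (rb b : ℂ))

theorem rbc_ne (b : ℂ) : (rb b : ℂ) ≠ 0 := by exact_mod_cast (rb_pos b).ne'

theorem rbc_sq (b : ℂ) : (rb b : ℂ) ^ 2 = 1 + b * conj b := by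
  rw [Complex.mul_conj, Complex.normSq_eq_norm_sq]
  have := rb_sq b
  rw [← Complex.ofReal_pow, this]
  push_cast
  ring

theorem wB_unit (b : ℂ) : IsU (wB b) := by
  unfold IsU n2 wB
  have h1 := rb_sq b
  have h2 := rb_pos b
  simp only [norm_div, Complex.norm_real, norm_one, Real.norm_eq_abs, abs_of_pos h2, div_pow]
  rw [h1]
  have : (1 + ‖b‖ ^ 2) ≠ 0 := by positivity
  field_simp
  ring

theorem wC_unit (b : ℂ) : IsU (wC b) := by
  unfold IsU n2 wC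
  have h1 := rb_sq b
  have h2 := rb_pos b
  simp only [norm_div, norm_neg, Complex.norm_real, norm_one, RCLike.norm_conj, Real.norm_eq_abs, abs_of_pos h2, div_pow]
  rw [h1]
  have : (1 + ‖b‖ ^ 2) ≠ 0 := by positivity
  field_simp

theorem wd_BC (b : ℂ) : wd (wB b) (wC b) = -1 := by
  unfold wd wB wC
  have h1 := rbc_sq b
  have h2 := rbc_ne b
  simp only
  field_simp
  linear_combination h1

theorem wd_lin (t s : ℂ) (b : ℂ) : wd (wB b + t • wC b) (wB b + s • wC b) = t - s := by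
  have h1 := wd_BC b
  unfold wd at h1 ⊢
  simp only [Prod.fst_add, Prod.snd_add, Prod.smul_fst, Prod.smul_snd, smul_eq_mul]
  linear_combination (s - t) * h1

theorem wd_linC (t : ℂ) (b : ℂ) : wd (wB b + t • wC b) (wC b) = -1 := by
  have h1 := wd_BC b
  unfold wd at h1 ⊢
  simp only [Prod.fst_add, Prod.snd_add, Prod.smul_fst, Prod.smul_snd, smul_eq_mul]
  linear_combination h1

theorem n2_lin (t : ℂ) (b : ℂ) : n2 (wB b + t • wC b) = 1 + ‖t‖ ^ 2 := by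
  have h1 := rb_sq b
  have h2 := rb_pos b
  have h3 : ((n2 (wB b + t • wC b) : ℝ) : ℂ) = ((1 + ‖t‖ ^ 2 : ℝ) : ℂ) := by
    unfold n2
    push_cast
    rw [← Complex.ofReal_pow ‖(wB b + t • wC b).1‖, ← Complex.ofReal_pow ‖(wB b + t • wC b).2‖, ← Complex.ofReal_pow ‖t‖,
      ← Complex.normSq_eq_norm_sq, ← Complex.normSq_eq_norm_sq, ← Complex.normSq_eq_norm_sq,
      ← Complex.mul_conj, ← Complex.mul_conj, ← Complex.mul_conj]
    unfold wB wC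
    simp only [Prod.fst_add, Prod.snd_add, Prod.smul_fst, Prod.smul_snd, smul_eq_mul, map_add, map_mul, map_div₀,
      map_neg, map_one, Complex.conj_ofReal, Complex.conj_conj]
    have h4 := rbc_sq b
    have h5 := rbc_ne b
    field_simp
    rw [h4]
    ring
  exact_mod_cast h3

/-- a polynomial in the chart at `b` -/
theorem hev_sc (d : ℕ) (b : ℂ) (G : ℂ[X]) (u : ℂ) :
    hev (fun k : Fin (d + 1) => G.coeff (k : ℕ)) (wB b + (u / ((√d : ℝ) : ℂ)) • wC b) = sc d b G u := by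
  unfold sc Gc hev
  rw [eval_mul, eval_C, eval_finsetSum, Finset.mul_sum, Finset.sum_range]
  refine Finset.sum_congr rfl fun k _ => ?_
  have hk : (k : ℕ) + (d - k) = d := Nat.add_sub_cancel' (Nat.lt_succ_iff.1 k.2)
  simp only [eval_mul, eval_pow, eval_add, eval_sub, eval_C, eval_X, eval_one]
  obtain ⟨t, ht⟩ : ∃ t : ℂ, t = u / ((√d : ℝ) : ℂ) := ⟨_, rfl⟩
  rw [← ht]
  have h1 : √((1 + ‖b‖ ^ 2) ^ d) = rb b ^ d := sqrt_pow' (by positivity) d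
  have h2 : (wB b + t • wC b).1 = (b + t) / (rb b : ℂ) := by
    unfold wB wC
    simp only [Prod.fst_add, Prod.smul_fst, smul_eq_mul]
    ring
  have h3 : (wB b + t • wC b).2 = (1 - conj b * t) / (rb b : ℂ) := by
    unfold wB wC
    simp only [Prod.snd_add, Prod.smul_snd, smul_eq_mul]
    ring
  rw [h1, h2, h3, div_pow, div_pow]
  have h4 : (rb b : ℂ) ^ d = (rb b : ℂ) ^ (k : ℕ) * (rb b : ℂ) ^ (d - k) := by rw [← pow_add, hk]
  push_cast
  rw [h4]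
  have h5 := rbc_ne b
  field_simp

theorem FF_sc (d : ℕ) (b : ℂ) (P Q : ℂ[X]) (u : ℂ) :
    FF (cvp d P Q) (wB b + (u / ((√d : ℝ) : ℂ)) • wC b) = (sc d b P u, sc d b Q u) := by
  unfold FF cvp
  rw [← hev_sc d b P u, ← hev_sc d b Q u]

private theorem chb_euler {d : ℕ} (p : Fin (d + 1) → ℂ) (u : ℂ × ℂ) :
    u.1 * hev1 p u + u.2 * hev2 p u = d * hev p u := by
  unfold hev1 hev2 hev
  rw [Finset.mul_sum, Finset.mul_sum, Finset.mul_sum, ← Finset.sum_add_distrib]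
  refine Finset.sum_congr rfl fun k _ => ?_
  have hk : (k : ℕ) ≤ d := Nat.lt_succ_iff.1 k.2
  have h1 : (k : ℂ) * u.1 ^ (k : ℕ) = u.1 * ((k : ℕ) * u.1 ^ ((k : ℕ) - 1)) := by
    rcases Nat.eq_zero_or_pos (k : ℕ) with h | h
    · rw [h]; simp
    · obtain ⟨m, hm⟩ : ∃ m, (k : ℕ) = m + 1 := ⟨(k : ℕ) - 1, by omega⟩
      rw [hm, Nat.add_sub_cancel, pow_succ]
      ring
  have h2 : ((d - k : ℕ) : ℂ) * u.2 ^ (d - (k : ℕ)) = u.2 * (((d - k : ℕ) : ℂ) * u.2 ^ (d - (k : ℕ) - 1)) := by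
    rcases Nat.eq_zero_or_pos (d - (k : ℕ)) with h | h
    · rw [h]; simp
    · obtain ⟨m, hm⟩ : ∃ m, d - (k : ℕ) = m + 1 := ⟨d - (k : ℕ) - 1, by omega⟩
      rw [hm, Nat.add_sub_cancel, pow_succ]
      ring
  have h3 : (d : ℂ) = (k : ℂ) + ((d - k : ℕ) : ℂ) := by
    rw [← Nat.cast_add]
    congr 1
    omega
  calc u.1 * (p k * ((k : ℕ) * u.1 ^ ((k : ℕ) - 1)) * u.2 ^ (d - (k : ℕ))) +
        u.2 * (p k * u.1 ^ (k : ℕ) * (((d - k : ℕ) : ℂ) * u.2 ^ (d - (k : ℕ) - 1)))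
      = p k * (u.1 * ((k : ℕ) * u.1 ^ ((k : ℕ) - 1))) * u.2 ^ (d - (k : ℕ)) +
        p k * u.1 ^ (k : ℕ) * (u.2 * (((d - k : ℕ) : ℂ) * u.2 ^ (d - (k : ℕ) - 1))) := by ring
    _ = p k * ((k : ℂ) * u.1 ^ (k : ℕ)) * u.2 ^ (d - (k : ℕ)) +
        p k * u.1 ^ (k : ℕ) * (((d - k : ℕ) : ℂ) * u.2 ^ (d - (k : ℕ))) := by rw [← h1, ← h2]
    _ = ((k : ℂ) + ((d - k : ℕ) : ℂ)) * (p k * u.1 ^ (k : ℕ) * u.2 ^ (d - (k : ℕ))) := by ring
    _ = _ := by rw [← h3]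

/-- derivative along a line -/

private theorem chb_line {d : ℕ} (p : Fin (d + 1) → ℂ) (u v : ℂ × ℂ) (t : ℂ) :
    HasDerivAt (fun t : ℂ => hev p (u + t • v)) (v.1 * hev1 p (u + t • v) + v.2 * hev2 p (u + t • v)) t := by
  unfold hev hev1 hev2
  rw [Finset.mul_sum, Finset.mul_sum, ← Finset.sum_add_distrib]
  refine HasDerivAt.fun_sum fun k _ => ?_
  have e1 : HasDerivAt (fun t : ℂ => (u + t • v).1) v.1 t := by
    have : (fun t : ℂ => (u + t • v).1) = fun t : ℂ => u.1 + t * v.1 := by funext t; simp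
    rw [this]
    simpa using ((hasDerivAt_id t).mul_const v.1).const_add u.1
  have e2 : HasDerivAt (fun t : ℂ => (u + t • v).2) v.2 t := by
    have : (fun t : ℂ => (u + t • v).2) = fun t : ℂ => u.2 + t * v.2 := by funext t; simp
    rw [this]
    simpa using ((hasDerivAt_id t).mul_const v.2).const_add u.2
  have e3 := e1.pow (k : ℕ)
  have e4 := e2.pow (d - (k : ℕ))
  have e5 := (e3.const_mul (p k)).mul e4
  convert! e5 using 1
  simp only [Pi.pow_apply]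
  ring

theorem sc_deriv (d : ℕ) (b : ℂ) (G : ℂ[X]) (u : ℂ) :
    deriv (sc d b G) u = (1 / ((√d : ℝ) : ℂ)) *
      ((wC b).1 * hev1 (fun k : Fin (d + 1) => G.coeff (k : ℕ)) (wB b + (u / ((√d : ℝ) : ℂ)) • wC b) +
        (wC b).2 * hev2 (fun k : Fin (d + 1) => G.coeff (k : ℕ)) (wB b + (u / ((√d : ℝ) : ℂ)) • wC b)) := by
  have h1 : sc d b G = fun u : ℂ => hev (fun k : Fin (d + 1) => G.coeff (k : ℕ)) (wB b + (u / ((√d : ℝ) : ℂ)) • wC b) := by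
    funext u
    rw [hev_sc]
  rw [h1]
  have h2 := chb_line (fun k : Fin (d + 1) => G.coeff (k : ℕ)) (wB b) (wC b) (u / ((√d : ℝ) : ℂ))
  have h3 : HasDerivAt (fun u : ℂ => u / ((√d : ℝ) : ℂ)) (1 / ((√d : ℝ) : ℂ)) u := (hasDerivAt_id u).div_const _
  have h4 := h2.comp u h3
  rw [mul_comm]
  exact h4.deriv

theorem JJ_sc (d : ℕ) (hd : 1 ≤ d) (b : ℂ) (P Q : ℂ[X]) (u : ℂ) :
    JJ (cvp d P Q) (wB b + (u / ((√d : ℝ) : ℂ)) • wC b) = (d : ℂ) * ((√d : ℝ) : ℂ) * Wc d b P Q u := by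
  have hs : ((√d : ℝ) : ℂ) ≠ 0 := by
    have : 0 < √(d : ℝ) := Real.sqrt_pos.2 (by exact_mod_cast hd)
    exact_mod_cast this.ne'
  unfold Wc
  rw [sc_deriv, sc_deriv, ← hev_sc, ← hev_sc]
  obtain ⟨y, hy⟩ : ∃ y : ℂ × ℂ, y = wB b + (u / ((√d : ℝ) : ℂ)) • wC b := ⟨_, rfl⟩
  have hw := wd_linC (u / ((√d : ℝ) : ℂ)) b
  rw [← hy] at hw ⊢
  have h1 := chb_euler (cvp d P Q).1 y
  have h2 := chb_euler (cvp d P Q).2 y
  unfold JJ
  unfold wd at hw
  unfold cvp at h1 h2 ⊢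
  simp only at h1 h2 ⊢
  obtain ⟨a1, ha1⟩ : ∃ a, a = hev1 (fun k : Fin (d + 1) => P.coeff (k : ℕ)) y := ⟨_, rfl⟩
  obtain ⟨a2, ha2⟩ : ∃ a, a = hev2 (fun k : Fin (d + 1) => P.coeff (k : ℕ)) y := ⟨_, rfl⟩
  obtain ⟨b1, hb1⟩ : ∃ a, a = hev1 (fun k : Fin (d + 1) => Q.coeff (k : ℕ)) y := ⟨_, rfl⟩
  obtain ⟨b2, hb2⟩ : ∃ a, a = hev2 (fun k : Fin (d + 1) => Q.coeff (k : ℕ)) y := ⟨_, rfl⟩
  obtain ⟨p, hp⟩ : ∃ a, a = hev (fun k : Fin (d + 1) => P.coeff (k : ℕ)) y := ⟨_, rfl⟩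
  obtain ⟨q, hq⟩ : ∃ a, a = hev (fun k : Fin (d + 1) => Q.coeff (k : ℕ)) y := ⟨_, rfl⟩
  rw [← ha1, ← ha2, ← hp] at h1
  rw [← hb1, ← hb2, ← hq] at h2
  rw [← ha1, ← ha2, ← hb1, ← hb2, ← hp, ← hq]
  obtain ⟨s, hs'⟩ : ∃ s : ℂ, s = ((√d : ℝ) : ℂ) := ⟨_, rfl⟩
  rw [← hs'] at hs ⊢
  have e1 : (d : ℂ) * s * (1 / s * ((wC b).1 * a1 + (wC b).2 * a2) * q - p * (1 / s * ((wC b).1 * b1 + (wC b).2 * b2))) =
      ((wC b).1 * a1 + (wC b).2 * a2) * (d * q) - (d * p) * ((wC b).1 * b1 + (wC b).2 * b2) := by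
    field_simp
  rw [e1, ← h1, ← h2]
  linear_combination (a1 * b2 - a2 * b1) * hw

/-- the unit vector of the point `u` of the chart at `b` -/
noncomputable def pt (d : ℕ) (b u : ℂ) : ℂ × ℂ :=
  (((√(1 + ‖u‖ ^ 2 / d))⁻¹ : ℝ) : ℂ) • (wB b + (u / ((√d : ℝ) : ℂ)) • wC b)

theorem norm_div_sqrt (d : ℕ) (u : ℂ) : ‖u / ((√d : ℝ) : ℂ)‖ ^ 2 = ‖u‖ ^ 2 / d := by
  rw [norm_div, Complex.norm_real, Real.norm_eq_abs, abs_of_nonneg (Real.sqrt_nonneg _), div_pow,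
    Real.sq_sqrt (Nat.cast_nonneg d)]

theorem pt_unit (d : ℕ) (b u : ℂ) : IsU (pt d b u) := by
  unfold IsU pt
  rw [Pool.Agent.H47.SF.n2_smul, n2_lin, norm_div_sqrt, Complex.norm_real, Real.norm_eq_abs,
    abs_of_nonneg (by positivity), inv_pow, Real.sq_sqrt (by positivity)]
  exact inv_mul_cancel₀ (by positivity)

/-- size of the map at a chart point -/
theorem FF_pt (d : ℕ) (b u : ℂ) (P Q : ℂ[X]) :
    n2 (FF (cvp d P Q) (pt d b u)) = (‖sc d b P u‖ ^ 2 + ‖sc d b Q u‖ ^ 2) / (1 + ‖u‖ ^ 2 / d) ^ d := by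
  unfold pt
  rw [Pool.Agent.H47.SF.FF_smul, Pool.Agent.H47.SF.n2_smul, FF_sc, norm_pow, Complex.norm_real, Real.norm_eq_abs,
    abs_of_nonneg (by positivity)]
  unfold n2
  have h1 : (0 : ℝ) < 1 + ‖u‖ ^ 2 / d := by positivity
  rw [← pow_mul, mul_comm d 2, pow_mul, inv_pow, Real.sq_sqrt h1.le, inv_pow]
  simp only
  ring

/-- the direction of the image of a chart point -/
theorem FF_pt_smul (d : ℕ) (b u : ℂ) (P Q : ℂ[X]) :
    FF (cvp d P Q) (pt d b u) = ((((√(1 + ‖u‖ ^ 2 / d))⁻¹ : ℝ) : ℂ) ^ d) • (sc d b P u, sc d b Q u) := by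
  unfold pt
  rw [Pool.Agent.H47.SF.FF_smul, FF_sc]

theorem JJ_pt (d : ℕ) (hd : 1 ≤ d) (b u : ℂ) (P Q : ℂ[X]) :
    JJ (cvp d P Q) (pt d b u) = ((((√(1 + ‖u‖ ^ 2 / d))⁻¹ : ℝ) : ℂ) ^ (2 * (d - 1))) *
      ((d : ℂ) * ((√d : ℝ) : ℂ) * Wc d b P Q u) := by
  unfold pt
  rw [Pool.Agent.H47.SF.JJ_smul, JJ_sc d hd]

theorem JJ_pt_zero (d : ℕ) (hd : 1 ≤ d) (b u : ℂ) (P Q : ℂ[X]) :
    JJ (cvp d P Q) (pt d b u) = 0 ↔ Wc d b P Q u = 0 := by
  rw [JJ_pt d hd]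
  have h1 : (0 : ℝ) < (√(1 + ‖u‖ ^ 2 / d))⁻¹ := by positivity
  have h2 : (((√(1 + ‖u‖ ^ 2 / d))⁻¹ : ℝ) : ℂ) ≠ 0 := by exact_mod_cast h1.ne'
  have h3 : ((√d : ℝ) : ℂ) ≠ 0 := by
    have : 0 < √(d : ℝ) := Real.sqrt_pos.2 (by exact_mod_cast hd)
    exact_mod_cast this.ne'
  have h4 : (d : ℂ) ≠ 0 := by
    have : d ≠ 0 := by omega
    exact_mod_cast this
  constructor
  · intro h
    rcases mul_eq_zero.1 h with h | h
    · exact absurd h (pow_ne_zero _ h2)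
    · rcases mul_eq_zero.1 h with h | h
      · exact absurd h (mul_ne_zero h4 h3)
      · exact h
  · intro h
    rw [h, mul_zero, mul_zero]

/-- the spherical derivative at a chart point -/
theorem aa_pt (d : ℕ) (hd : 1 ≤ d) (b u : ℂ) (P Q : ℂ[X]) :
    ‖aa (cvp d P Q) (pt d b u)‖ =
      √d * ‖Wc d b P Q u‖ / (‖sc d b P u‖ ^ 2 + ‖sc d b Q u‖ ^ 2) * (1 + ‖u‖ ^ 2 / d) := by
  unfold aa
  have h0 : (0 : ℝ) ≤ n2 (FF (cvp d P Q) (pt d b u)) := Pool.Agent.H47.SF.n2_nonneg _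
  rw [norm_div, norm_mul, Complex.norm_natCast, Complex.norm_real, Real.norm_eq_abs, abs_of_nonneg h0, FF_pt, JJ_pt d hd,
    norm_mul, norm_pow, Complex.norm_real, Real.norm_eq_abs, abs_of_nonneg (by positivity), norm_mul, norm_mul,
    Complex.norm_natCast, Complex.norm_real, Real.norm_eq_abs, abs_of_nonneg (Real.sqrt_nonneg _)]
  obtain ⟨A, hA⟩ : ∃ A : ℝ, A = 1 + ‖u‖ ^ 2 / d := ⟨_, rfl⟩
  have hA0 : 0 < A := by rw [hA]; positivity
  obtain ⟨N, hN⟩ : ∃ N : ℝ, N = ‖sc d b P u‖ ^ 2 + ‖sc d b Q u‖ ^ 2 := ⟨_, rfl⟩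
  rw [← hA, ← hN]
  have hd0 : (0 : ℝ) < d := by exact_mod_cast hd
  obtain ⟨e, rfl⟩ : ∃ e, d = e + 1 := ⟨d - 1, by omega⟩
  rw [Nat.add_sub_cancel, inv_pow, pow_mul, Real.sq_sqrt hA0.le]
  rcases eq_or_ne N 0 with h | h
  · rw [h]
    simp
  · rw [pow_succ]
    field_simp

/-- distance of two points of one chart -/
private theorem chb_conj {u : ℂ × ℂ} (hu : IsU u) : u.1 * (starRingEnd ℂ) u.1 + u.2 * (starRingEnd ℂ) u.2 = 1 := by
  have h2 : ‖u.1‖ ^ 2 + ‖u.2‖ ^ 2 = 1 := hu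
  rw [Complex.mul_conj, Complex.mul_conj, Complex.normSq_eq_norm_sq, Complex.normSq_eq_norm_sq]
  exact_mod_cast h2

private theorem chb_cu {u w : ℂ × ℂ} (hu : IsU u) (hw : IsU w) :
    ‖w.1 * (starRingEnd ℂ) u.1 + w.2 * (starRingEnd ℂ) u.2‖ ^ 2 + ‖wd u w‖ ^ 2 = 1 := by
  have h1 := chb_conj hu
  have h2 := chb_conj hw
  have h3 : ((‖w.1 * (starRingEnd ℂ) u.1 + w.2 * (starRingEnd ℂ) u.2‖ ^ 2 + ‖wd u w‖ ^ 2 : ℝ) : ℂ) = 1 := by
    rw [← Complex.normSq_eq_norm_sq, ← Complex.normSq_eq_norm_sq]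
    push_cast
    rw [← Complex.mul_conj, ← Complex.mul_conj]
    unfold wd
    simp only [map_add, map_sub, map_mul, Complex.conj_conj]
    linear_combination (w.1 * (starRingEnd ℂ) w.1 + w.2 * (starRingEnd ℂ) w.2) * h1 + h2
  exact_mod_cast h3

theorem wd_pt (d : ℕ) (hd : 1 ≤ d) (b u v : ℂ) :
    √d * ‖wd (pt d b u) (pt d b v)‖ = ‖u - v‖ / (√(1 + ‖u‖ ^ 2 / d) * √(1 + ‖v‖ ^ 2 / d)) := by
  unfold pt
  rw [Pool.H26.SF.wd_smul_left, Pool.H26.SF.wd_smul_right, wd_lin, ← sub_div, norm_mul, norm_mul, norm_div, Complex.norm_real,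
    Complex.norm_real, Complex.norm_real, Real.norm_eq_abs, Real.norm_eq_abs, Real.norm_eq_abs, abs_of_nonneg (by positivity),
    abs_of_nonneg (by positivity), abs_of_nonneg (by positivity)]
  have hd0 : (0 : ℝ) < √d := Real.sqrt_pos.2 (by exact_mod_cast hd)
  have h1 : (0 : ℝ) < √(1 + ‖u‖ ^ 2 / d) := by positivity
  have h2 : (0 : ℝ) < √(1 + ‖v‖ ^ 2 / d) := by positivity
  field_simp

/-- the coordinates of a unit vector in the chart at `b` -/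
theorem coord (b : ℂ) {y : ℂ × ℂ} (hy : IsU y) (h : ‖wd y (wB b)‖ < 1) :
    ∃ t z : ℂ, ‖z‖ ^ 2 * (1 + ‖t‖ ^ 2) = 1 ∧ y = z • (wB b + t • wC b) ∧ ‖t‖ ^ 2 * (1 - ‖wd y (wB b)‖ ^ 2) = ‖wd y (wB b)‖ ^ 2 := by
  obtain ⟨A, hA⟩ : ∃ A : ℂ, A = y.1 * conj (wB b).1 + y.2 * conj (wB b).2 := ⟨_, rfl⟩
  obtain ⟨B, hB⟩ : ∃ B : ℂ, B = wd y (wB b) := ⟨_, rfl⟩
  have h1 := rbc_sq b
  have h2 := rbc_ne b
  have hdec : y = A • wB b + B • wC b := by
    rw [hA, hB]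
    unfold wd wB wC
    ext
    · simp only [Prod.fst_add, Prod.smul_fst, smul_eq_mul, map_div₀, map_one, Complex.conj_ofReal]
      field_simp
      rw [h1]
      ring
    · simp only [Prod.snd_add, Prod.smul_snd, smul_eq_mul, map_div₀, map_one, Complex.conj_ofReal]
      field_simp
      rw [h1]
      ring
  have hn : ‖A‖ ^ 2 + ‖B‖ ^ 2 = 1 := by
    have := chb_cu (wB_unit b) hy
    rw [hA, hB]
    have e : ‖wd y (wB b)‖ = ‖wd (wB b) y‖ := by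
      rw [← norm_neg]
      congr 1
      unfold wd
      ring
    rw [e]
    exact this
  rw [← hB] at h ⊢
  have hA0 : A ≠ 0 := by
    rintro rfl
    rw [norm_zero] at hn
    have : ‖B‖ ^ 2 < 1 := by nlinarith [norm_nonneg B]
    linarith
  have hAn : 0 < ‖A‖ := norm_pos_iff.2 hA0
  refine ⟨B / A, A, ?_, ?_, ?_⟩
  · rw [norm_div, div_pow]
    field_simp
    exact hn
  · rw [hdec]
    have hB' : B = A * (B / A) := by field_simp
    rw [smul_add, smul_smul, ← hB']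
  · rw [norm_div, div_pow, show 1 - ‖B‖ ^ 2 = ‖A‖ ^ 2 by linarith]
    field_simp

/-- every point of the sphere, infinity included, is near a centre -/
theorem cov_unit {d : ℕ} {s : Finset ℂ} (hs : Cov d s) {y : ℂ × ℂ} (hy : IsU y) :
    ∃ b ∈ s, ‖wd y (wB b)‖ ≤ 1 / (4 * √d) := by
  have key : ∀ z b : ℂ, sg z b = ‖wd (wB z) (wB b)‖ := by
    intro z b
    have hz := rb_pos z
    have hb := rb_pos b
    unfold sg wd wB
    simp only
    have e : z / (rb z : ℂ) * (1 / (rb b : ℂ)) - 1 / (rb z : ℂ) * (b / (rb b : ℂ)) = (z - b) / ((rb z : ℂ) * (rb b : ℂ)) := by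
      have h1 := rbc_ne z
      have h2 := rbc_ne b
      field_simp
    rw [e, norm_div, norm_mul, Complex.norm_real, Complex.norm_real, Real.norm_eq_abs, Real.norm_eq_abs, abs_of_pos hz,
      abs_of_pos hb, Real.sqrt_mul (by positivity)]
    rfl
  by_cases hy2 : y.2 = 0
  · -- infinity
    have hseq : ∀ n : ℕ, ∃ b ∈ s, ‖wd (wB (n : ℂ)) (wB b)‖ < 1 / (4 * √d) := by
      intro n
      obtain ⟨b, hb, h⟩ := hs (n : ℂ)
      rw [key] at h
      exact ⟨b, hb, h⟩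
    choose b hb hlt using hseq
    obtain ⟨b0, hb0s, hb0⟩ : ∃ b0 ∈ s, ∃ᶠ n in atTop, b n = b0 := by
      by_contra hcon
      push Not at hcon
      have h1 : ∀ b0 ∈ s, ∀ᶠ n in atTop, b n ≠ b0 := hcon
      have h2 : ∀ᶠ n in atTop, ∀ b0 ∈ s, b n ≠ b0 := by
        rw [Filter.eventually_all_finset]
        exact h1
      obtain ⟨n, hn⟩ := h2.exists
      exact hn (b n) (hb n) rfl
    refine ⟨b0, hb0s, ?_⟩
    have hlim : Tendsto (fun n : ℕ => ‖wd (wB (n : ℂ)) (wB b0)‖) atTop (𝓝 ‖wd ((1 : ℂ), (0 : ℂ)) (wB b0)‖) := by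
      have h1 : Tendsto (fun n : ℕ => (1 : ℝ) / rb (n : ℂ)) atTop (𝓝 0) := by
        have h2 : Tendsto (fun n : ℕ => (1 : ℝ) / ((n : ℝ) + 1)) atTop (𝓝 0) := tendsto_one_div_add_atTop_nhds_zero_nat
        refine squeeze_zero (fun n => by have := rb_pos (n : ℂ); positivity) (fun n => ?_) (h2.const_mul 2 |>.trans (by simp))
        have h3 : ((n : ℝ) + 1) / 2 ≤ rb (n : ℂ) := by
          unfold rb
          apply Real.le_sqrt_of_sq_le
          rw [Complex.norm_natCast]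
          nlinarith [sq_nonneg ((n : ℝ) - 1)]
        have h4 := rb_pos (n : ℂ)
        rw [div_le_iff₀ h4]
        have h5 : (0 : ℝ) < (n : ℝ) + 1 := by positivity
        rw [mul_one_div, div_mul_eq_mul_div, le_div_iff₀ h5]
        linarith
      have h2 : Tendsto (fun n : ℕ => (n : ℝ) / rb (n : ℂ)) atTop (𝓝 1) := by
        have h3 : Tendsto (fun n : ℕ => √(1 - ((1 : ℝ) / rb (n : ℂ)) ^ 2)) atTop (𝓝 (√(1 - 0 ^ 2))) :=
          (Real.continuous_sqrt.tendsto _).comp (tendsto_const_nhds.sub (h1.pow 2))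
        have h4 : √(1 - (0 : ℝ) ^ 2) = 1 := by norm_num
        rw [h4] at h3
        refine h3.congr fun n => ?_
        have h5 := rb_pos (n : ℂ)
        have h6 := rb_sq (n : ℂ)
        rw [Complex.norm_natCast] at h6
        have h7 : 1 - ((1 : ℝ) / rb (n : ℂ)) ^ 2 = ((n : ℝ) / rb (n : ℂ)) ^ 2 := by
          rw [div_pow, div_pow, h6]
          have : (1 + (n : ℝ) ^ 2) ≠ 0 := by positivity
          field_simp
          ring
        rw [h7, Real.sqrt_sq (by positivity)]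
      have h3 : Tendsto (fun n : ℕ => wd (wB (n : ℂ)) (wB b0)) atTop (𝓝 (wd ((1 : ℂ), (0 : ℂ)) (wB b0))) := by
        unfold wd wB
        simp only
        refine Tendsto.sub (Tendsto.mul ?_ tendsto_const_nhds) (Tendsto.mul ?_ tendsto_const_nhds)
        · have h5 := (Complex.continuous_ofReal.tendsto _).comp h2
          rw [Complex.ofReal_one] at h5
          refine h5.congr fun n => ?_
          simp
        · have h5 := (Complex.continuous_ofReal.tendsto _).comp h1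
          rw [Complex.ofReal_zero] at h5
          refine h5.congr fun n => ?_
          simp
      exact h3.norm
    have hle : ‖wd ((1 : ℂ), (0 : ℂ)) (wB b0)‖ ≤ 1 / (4 * √d) := by
      by_contra hcon
      push Not at hcon
      have h1 := hlim.eventually (lt_mem_nhds hcon)
      obtain ⟨n, hn1, hn2⟩ := (hb0.and_eventually h1).exists
      have := hlt n
      rw [hn1] at this
      linarith
    have hy1 : ‖y.1‖ = 1 := by
      have : ‖y.1‖ ^ 2 + ‖y.2‖ ^ 2 = 1 := hy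
      rw [hy2, norm_zero] at this
      nlinarith [norm_nonneg y.1]
    have e : wd y (wB b0) = y.1 * wd ((1 : ℂ), (0 : ℂ)) (wB b0) := by
      unfold wd
      rw [hy2]
      ring
    rw [e, norm_mul, hy1, one_mul]
    exact hle
  · obtain ⟨b, hb, h⟩ := hs (y.1 / y.2)
    refine ⟨b, hb, ?_⟩
    rw [key] at h
    obtain ⟨z, hz⟩ : ∃ z : ℂ, z = y.1 / y.2 := ⟨_, rfl⟩
    rw [← hz] at h
    have hrz := rb_pos z
    have hy1 : y.1 = z * y.2 := by rw [hz]; field_simp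
    have h3 : ‖y.2‖ * rb z = 1 := by
      have h4 : ‖y.1‖ ^ 2 + ‖y.2‖ ^ 2 = 1 := hy
      rw [hy1, norm_mul] at h4
      have h5 : (‖y.2‖ * rb z) ^ 2 = 1 := by
        rw [mul_pow, rb_sq]
        linarith
      have h6 : 0 ≤ ‖y.2‖ * rb z := by positivity
      nlinarith
    have e : wd y (wB b) = (y.2 * (rb z : ℂ)) * wd (wB z) (wB b) := by
      unfold wd wB
      simp only
      have h5 := rbc_ne z
      rw [hy1]
      field_simp
    rw [e, norm_mul, norm_mul, Complex.norm_real, Real.norm_eq_abs, abs_of_pos hrz, h3, one_mul]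
    exact h.le

/-- every point of the sphere is a chart point with `‖u‖ ≤ 1/3` of some centre, up to phase -/
theorem exists_pt {d : ℕ} (hd : 1 ≤ d) {s : Finset ℂ} (hs : Cov d s) {y : ℂ × ℂ} (hy : IsU y) :
    ∃ b ∈ s, ∃ u z : ℂ, ‖u‖ ≤ 1 / 3 ∧ ‖z‖ = 1 ∧ y = z • pt d b u := by
  obtain ⟨b, hb, h⟩ := cov_unit hs hy
  have hd1 : (1 : ℝ) ≤ d := by exact_mod_cast hd
  have hsd : 1 ≤ √(d : ℝ) := Real.one_le_sqrt.2 hd1
  have hsq : √(d : ℝ) ^ 2 = d := Real.sq_sqrt (by positivity)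
  have hx : √(d : ℝ) * ‖wd y (wB b)‖ ≤ 1 / 4 := by
    rw [le_div_iff₀ (by positivity)] at h
    linarith
  have h4 : ‖wd y (wB b)‖ ≤ 1 / 4 := by
    have : 1 * ‖wd y (wB b)‖ ≤ √(d : ℝ) * ‖wd y (wB b)‖ := mul_le_mul_of_nonneg_right hsd (norm_nonneg _)
    linarith
  obtain ⟨t, z, h1, h2, h3⟩ := coord b hy (by linarith)
  obtain ⟨B, hB⟩ : ∃ B : ℝ, B = ‖wd y (wB b)‖ := ⟨_, rfl⟩
  rw [← hB] at h3 h4 hx
  have hB0 : 0 ≤ B := by rw [hB]; positivity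
  have hs0 : ((√d : ℝ) : ℂ) ≠ 0 := by exact_mod_cast (by linarith : (0 : ℝ) < √(d : ℝ)).ne'
  have hnt : ‖((√d : ℝ) : ℂ) * t‖ ^ 2 = d * ‖t‖ ^ 2 := by
    rw [norm_mul, Complex.norm_real, Real.norm_eq_abs, abs_of_nonneg (Real.sqrt_nonneg _), mul_pow, hsq]
  have hut : ‖((√d : ℝ) : ℂ) * t‖ ^ 2 / d = ‖t‖ ^ 2 := by
    rw [hnt]
    field_simp
  refine ⟨b, hb, ((√d : ℝ) : ℂ) * t, z * ((√(1 + ‖t‖ ^ 2) : ℝ) : ℂ), ?_, ?_, ?_⟩
  · have h5 : d * B ^ 2 ≤ 1 / 16 := by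
      have : (√(d : ℝ) * B) ^ 2 ≤ (1 / 4) ^ 2 := by
        apply pow_le_pow_left₀ (by positivity) hx
      rw [mul_pow, hsq] at this
      linarith
    have h6 : 15 / 16 ≤ 1 - B ^ 2 := by nlinarith
    have h7 : (d : ℝ) * ‖t‖ ^ 2 * (15 / 16) ≤ d * (‖t‖ ^ 2 * (1 - B ^ 2)) := by
      rw [mul_assoc]
      apply mul_le_mul_of_nonneg_left _ (by positivity)
      exact mul_le_mul_of_nonneg_left h6 (by positivity)
    rw [h3] at h7
    have h8 : ‖((√d : ℝ) : ℂ) * t‖ ^ 2 ≤ (1 / 3) ^ 2 := by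
      rw [hnt]
      linarith
    exact le_of_sq_le_sq h8 (by norm_num)
  · rw [norm_mul, Complex.norm_real, Real.norm_eq_abs, abs_of_nonneg (Real.sqrt_nonneg _)]
    have h5 : (‖z‖ * √(1 + ‖t‖ ^ 2)) ^ 2 = 1 := by
      rw [mul_pow, Real.sq_sqrt (by positivity)]
      exact h1
    have h6 : 0 ≤ ‖z‖ * √(1 + ‖t‖ ^ 2) := by positivity
    nlinarith
  · rw [h2]
    unfold pt
    rw [hut, smul_smul, mul_assoc, ← Complex.ofReal_mul, mul_inv_cancel₀ (by positivity), Complex.ofReal_one, mul_one,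
      mul_div_assoc, mul_comm ((√d : ℝ) : ℂ), div_mul_cancel₀ _ hs0]

end Pool.H91.SR
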