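import Mathlib
import Pool.Agent.H84.SR2.Def

/-!
SHARP RATE (MP_8f2e1c_an): the constants for large `d`.
-/

set_option autoImplicit false

open Filter Topology

namespace Pool.H91.SR

open Pool.Agent.H84.SRT Pool.Agent.H70.PL

/-- powers of the logarithm against powers of `d` -/
theorem log_pow_le (C : ℝ) (k : ℕ) {η : ℝ} (hη : 0 < η) : ∀ᶠ d : ℕ in atTop, C * LL d ^ k ≤ (d : ℝ) ^ η := by
  have h1 := (isLittleO_log_rpow_rpow_atTop (k : ℝ) hη).bound (show (0 : ℝ) < 1 / (|C| + 1) by positivity)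
  have h2 := tendsto_natCast_atTop_atTop (R := ℝ) |>.eventually h1
  filter_upwards [h2, eventually_ge_atTop 1] with d hd hd1
  have hd1' : (1 : ℝ) ≤ d := by exact_mod_cast hd1
  have hl : 0 ≤ Real.log d := Real.log_nonneg hd1'
  have hlk : 0 ≤ Real.log d ^ k := pow_nonneg hl k
  have hdp : 0 ≤ (d : ℝ) ^ η := Real.rpow_nonneg (by linarith) _
  rw [Real.rpow_natCast, Real.norm_eq_abs, Real.norm_eq_abs, abs_of_nonneg hlk, abs_of_nonneg hdp] at hd
  unfold LL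
  have h3 : C * Real.log d ^ k ≤ (|C| + 1) * Real.log d ^ k := by
    apply mul_le_mul_of_nonneg_right _ hlk
    linarith [le_abs_self C]
  refine h3.trans ?_
  rw [div_mul_eq_mul_div, one_mul, le_div_iff₀ (by positivity)] at hd
  linarith

theorem const_le (C : ℝ) {η : ℝ} (hη : 0 < η) : ∀ᶠ d : ℕ in atTop, C ≤ (d : ℝ) ^ η := by
  filter_upwards [log_pow_le C 0 hη] with d hd
  simpa using hd

theorem const_neg_le (C : ℝ) {a b : ℝ} (hab : a < b) : ∀ᶠ d : ℕ in atTop, C * (d : ℝ) ^ a ≤ (d : ℝ) ^ b := by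
  filter_upwards [const_le C (sub_pos.2 hab), eventually_ge_atTop 1] with d hd hd1
  have hd0 : (0 : ℝ) < d := by exact_mod_cast hd1
  have h1 : (d : ℝ) ^ b = (d : ℝ) ^ (b - a) * (d : ℝ) ^ a := by
    rw [← Real.rpow_add hd0]
    congr 1
    ring
  rw [h1]
  exact mul_le_mul_of_nonneg_right hd (Real.rpow_nonneg hd0.le _)

theorem mm_ge {e : ℝ} (_he : 0 < e) : 80 / e ≤ mm e := Nat.le_ceil _

theorem mm_pos {e : ℝ} (he : 0 < e) : 1 ≤ mm e := by
  have h1 := mm_ge he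
  have h2 : (0 : ℝ) < mm e := lt_of_lt_of_le (by positivity) h1
  exact_mod_cast h2

/-- the exponent of `be` -/
theorem be_exp {e : ℝ} (he : 0 < e) : 0 < e / (2000 * mm e) := by
  have h1 : (0 : ℝ) < mm e := by exact_mod_cast mm_pos he
  positivity

theorem be_pos {e : ℝ} {d : ℕ} (hd : 1 ≤ d) : 0 < be e d := by
  unfold be
  exact Real.rpow_pos_of_pos (by exact_mod_cast hd) _

theorem be_lt_one {e : ℝ} (he : 0 < e) {d : ℕ} (hd : 2 ≤ d) : be e d < 1 := by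
  unfold be
  apply Real.rpow_lt_one_of_one_lt_of_neg
  · exact_mod_cast hd
  · have := be_exp he
    linarith

/-- `be` to an integer power -/
theorem be_pow (e : ℝ) {d : ℕ} (k : ℕ) : be e d ^ k = (d : ℝ) ^ (-(e / (2000 * mm e)) * k) := by
  unfold be
  rw [← Real.rpow_natCast, ← Real.rpow_mul (Nat.cast_nonneg d)]

theorem be_mm {e : ℝ} (he : 0 < e) (d : ℕ) : (be e d ^ 5) ^ mm e = (d : ℝ) ^ (-(e / 400)) := by
  rw [← pow_mul, be_pow]
  congr 1
  have h1 : (mm e : ℝ) ≠ 0 := by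
    have := mm_pos he
    positivity
  push_cast
  field_simp
  ring

/-- constants and powers of the logarithm against `be` -/
theorem log_be_le (C : ℝ) (k : ℕ) {e : ℝ} (he : 0 < e) : ∀ᶠ d : ℕ in atTop, C * LL d ^ k * be e d ≤ 1 := by
  filter_upwards [log_pow_le C k (be_exp he), eventually_ge_atTop 1] with d hd hd1
  have hd0 : (0 : ℝ) < d := by exact_mod_cast hd1
  have hb := be_pos (e := e) hd1
  have h1 : (d : ℝ) ^ (e / (2000 * mm e)) * be e d = 1 := by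
    unfold be
    rw [← Real.rpow_add hd0, add_neg_cancel, Real.rpow_zero]
  calc C * LL d ^ k * be e d ≤ (d : ℝ) ^ (e / (2000 * mm e)) * be e d := mul_le_mul_of_nonneg_right hd hb.le
    _ = 1 := h1

theorem LL_ge (C : ℝ) : ∀ᶠ d : ℕ in atTop, C ≤ LL d := by
  unfold LL
  exact (Real.tendsto_log_atTop.comp (tendsto_natCast_atTop_atTop (R := ℝ))).eventually_ge_atTop C

theorem exp_LL {d : ℕ} (hd : 1 ≤ d) : Real.exp (-LL d) = (d : ℝ) ^ (-1 : ℝ) := by
  have hd0 : (0 : ℝ) < d := by exact_mod_cast hd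
  unfold LL
  rw [Real.rpow_neg_one, Real.exp_neg, Real.exp_log hd0]

/-- lower bound of `qn` -/
theorem qn_ge {A : ℝ} (hA : 1 ≤ A) {e : ℝ} (he : 0 < e) : ∀ᶠ d : ℕ in atTop, (d : ℝ) ^ (-(e / 100)) ≤ qn A e d := by
  filter_upwards [log_pow_le (A ^ mm e * (A * mm e)) (mm e) (show 0 < e / 100 - e / 400 by linarith), LL_ge 1,
    eventually_ge_atTop 1] with d hd hL hd1
  have hd0 : (0 : ℝ) < d := by exact_mod_cast hd1
  have hm : (0 : ℝ) < mm e := by exact_mod_cast mm_pos he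
  have hL0 : 0 < LL d := by linarith
  have hA0 : 0 < A := by linarith
  unfold qn q1 qq
  rw [div_pow, be_mm he, div_div, mul_pow]
  rw [le_div_iff₀ (by positivity)]
  have h1 : A ^ mm e * LL d ^ mm e * (A * mm e) ≤ (d : ℝ) ^ (e / 100 - e / 400) := by
    refine le_trans (le_of_eq ?_) hd
    ring
  calc (d : ℝ) ^ (-(e / 100)) * (A ^ mm e * LL d ^ mm e * (A * mm e))
      ≤ (d : ℝ) ^ (-(e / 100)) * (d : ℝ) ^ (e / 100 - e / 400) := mul_le_mul_of_nonneg_left h1 (Real.rpow_nonneg hd0.le _)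
    _ = (d : ℝ) ^ (-(e / 400)) := by
      rw [← Real.rpow_add hd0]
      congr 1
      ring

/-- upper bound of `qn` -/
theorem qn_le {A : ℝ} (hA : 1 ≤ A) {e : ℝ} (he : 0 < e) : ∀ᶠ d : ℕ in atTop, qn A e d ≤ (d : ℝ) ^ (-(e / 400)) := by
  filter_upwards [LL_ge 1, eventually_ge_atTop 1] with d hL hd1
  have hd0 : (0 : ℝ) < d := by exact_mod_cast hd1
  have hm : (1 : ℝ) ≤ mm e := by exact_mod_cast mm_pos he
  have hb := be_pos (e := e) hd1
  unfold qn q1 qq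
  rw [div_pow, be_mm he, div_div]
  apply div_le_self (Real.rpow_nonneg hd0.le _)
  have h1 : 1 ≤ A * LL d := by nlinarith
  have h2 : 1 ≤ (A * LL d) ^ mm e := one_le_pow₀ h1
  have h3 : 1 ≤ A * mm e := by nlinarith
  nlinarith

theorem qn_pos {A : ℝ} (hA : 1 ≤ A) {e : ℝ} (he : 0 < e) : ∀ᶠ d : ℕ in atTop, 0 < qn A e d := by
  filter_upwards [qn_ge hA he, eventually_ge_atTop 1] with d hd hd1
  exact lt_of_lt_of_le (Real.rpow_pos_of_pos (by exact_mod_cast hd1) _) hd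

theorem rp_pow {d : ℕ} (a : ℝ) (k : ℕ) : ((d : ℝ) ^ a) ^ k = (d : ℝ) ^ (a * k) := by
  rw [← Real.rpow_natCast, ← Real.rpow_mul (Nat.cast_nonneg d)]

/-- powers of `qn` -/
theorem qn_pow_ge {A : ℝ} (hA : 1 ≤ A) {e : ℝ} (he : 0 < e) (k : ℕ) :
    ∀ᶠ d : ℕ in atTop, (d : ℝ) ^ (-(e / 100) * k) ≤ qn A e d ^ k := by
  filter_upwards [qn_ge hA he] with d hd
  rw [← rp_pow]
  exact pow_le_pow_left₀ (Real.rpow_nonneg (Nat.cast_nonneg d) _) hd k

theorem tt_pos {e : ℝ} {d : ℕ} (hd : 1 ≤ d) : 0 < tt e d := by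
  unfold tt
  exact Real.rpow_pos_of_pos (by exact_mod_cast hd) _

theorem hh_eq {d : ℕ} (_hd : 1 ≤ d) : hh d = (d : ℝ) ^ (-(1 / 2) : ℝ) := by
  unfold hh
  rw [Real.sqrt_eq_rpow, Real.rpow_neg (Nat.cast_nonneg d), one_div]

theorem hh_pos {d : ℕ} (hd : 1 ≤ d) : 0 < hh d := by
  rw [hh_eq hd]
  exact Real.rpow_pos_of_pos (by exact_mod_cast hd) _

theorem hh_le_tt {e : ℝ} (he : 0 < e) {d : ℕ} (hd : 1 ≤ d) : hh d ≤ tt e d := by
  rw [hh_eq hd]
  unfold tt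
  exact Real.rpow_le_rpow_of_exponent_le (by exact_mod_cast hd) (by linarith)

/-- a constant times `hh` is below `kap k1 tt` -/
theorem hh_small (C : ℝ) {A : ℝ} (hA : 1 ≤ A) {e : ℝ} (he : 0 < e) :
    ∀ᶠ d : ℕ in atTop, C * hh d ≤ kap e d * k1 A e d * tt e d := by
  filter_upwards [qn_pow_ge hA he 2, const_neg_le C (show -(1 / 2 : ℝ) < -(e / 8) + -(e / 100) * (2 : ℕ) + (-(1 / 2) + e) by
    push_cast
    linarith), eventually_ge_atTop 1] with d h1 h2 hd1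
  have hd0 : (0 : ℝ) < d := by exact_mod_cast hd1
  rw [hh_eq hd1]
  refine h2.trans ?_
  rw [Real.rpow_add hd0, Real.rpow_add hd0]
  unfold kap k1 tt
  apply mul_le_mul_of_nonneg_right _ (Real.rpow_nonneg hd0.le _)
  exact mul_le_mul_of_nonneg_left h1 (Real.rpow_nonneg hd0.le _)

theorem kap_le_one {e : ℝ} (he : 0 < e) {d : ℕ} (hd : 1 ≤ d) : kap e d ≤ 1 := by
  unfold kap
  exact Real.rpow_le_one_of_one_le_of_nonpos (by exact_mod_cast hd) (by linarith)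

/-- the relations between the constants -/
theorem kon {A C1 : ℝ} (hA : 1 ≤ A) (hC : 0 ≤ C1) {e : ℝ} (he : 0 < e) (he1 : e ≤ 1 / 4) : ∀ᶠ d : ℕ in atTop,
    Kon A (LL d) (tt e d) (C1 * hh d) (qq e d) (q1 A e d) (qn A e d) (k1 A e d) (k2 A e d) (kap e d) (S0 e d) (mm e) := by
  filter_upwards [qn_ge hA he, qn_pos hA he, qn_pow_ge hA he 2, qn_pow_ge hA he 4, qn_pow_ge hA he 5, qn_le hA he, LL_ge 1,
    log_be_le 8 0 he, const_le 4 (show 0 < e / 40 by linarith), const_le A (show (0 : ℝ) < 1 / 2 by norm_num),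
    const_neg_le A (show -(e / 8) < -(e / 100) * (4 : ℕ) + -(e / 40) by push_cast; linarith),
    const_neg_le A (show -(e / 8) < -(e / 100) * (5 : ℕ) by push_cast; linarith),
    hh_small (A * C1) hA he, eventually_ge_atTop 2] with
    d hq hq0 hq2 hq4 hq5 hqle hL hb8 h4 hA1 hA2 hA3 hh' hd2
  have hd1 : 1 ≤ d := by omega
  have hd0 : (0 : ℝ) < d := by exact_mod_cast hd1
  have hd1' : (1 : ℝ) ≤ d := by exact_mod_cast hd1
  have hm : (1 : ℝ) ≤ mm e := by exact_mod_cast mm_pos he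
  have hbp := be_pos (e := e) hd1
  have hb1 := be_lt_one he hd2
  have hLp : 0 < LL d := by linarith
  have hAp : 0 < A := by linarith
  have hmono : ∀ a b : ℝ, a ≤ b → (d : ℝ) ^ a ≤ (d : ℝ) ^ b := fun a b h => Real.rpow_le_rpow_of_exponent_le hd1' h
  have hqn1 : qn A e d ≤ 1 := hqle.trans (Real.rpow_le_one_of_one_le_of_nonpos hd1' (by linarith))
  refine ⟨hL, ?_, ?_, ?_, ?_, ?_, ?_, ?_, mm_pos he, ?_, ?_, ?_, ?_, ?_, ?_, ?_, ?_, ?_, ?_, ?_, ?_⟩
  · unfold tt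
    exact Real.rpow_le_one_of_one_le_of_nonpos hd1' (by linarith)
  · rw [exp_LL hd1]
    exact hmono _ _ (by linarith)
  · -- q ≤ 1/8
    unfold qq
    rw [pow_zero, mul_one] at hb8
    have h5 : be e d ^ 5 ≤ be e d ^ 1 := pow_le_pow_of_le_one hbp.le hb1.le (by norm_num)
    rw [pow_one] at h5
    linarith
  · unfold q1 qq
    positivity
  · unfold q1
    have : A * LL d ≠ 0 := by positivity
    rw [mul_div_cancel₀ _ this]
  · rw [exp_LL hd1]
    exact (hmono _ _ (by linarith)).trans hq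
  · unfold qn
    have : A * (mm e : ℝ) ≠ 0 := by positivity
    rw [mul_div_cancel₀ _ this]
  · rw [exp_LL hd1]
    refine (hmono _ _ ?_).trans hq2
    push_cast
    linarith
  · unfold k1
    exact pow_le_one₀ hq0.le hqn1
  · rw [exp_LL hd1]
    refine (hmono _ _ ?_).trans hq4
    push_cast
    linarith
  · unfold k2
    exact pow_le_one₀ hq0.le hqn1
  · unfold S0
    exact Real.rpow_pos_of_pos hd0 _
  · unfold S0
    rw [Real.rpow_neg hd0.le]
    rw [show (1 / 4 : ℝ) = 4⁻¹ by norm_num]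
    exact inv_anti₀ (by norm_num) h4
  · -- A S0^m ≤ k1 t
    have e1 : S0 e d ^ mm e ≤ (d : ℝ) ^ (-2 : ℝ) := by
      unfold S0
      rw [rp_pow]
      apply hmono
      have h6 := mm_ge he
      rw [div_le_iff₀ he] at h6
      nlinarith
    have e2 : (d : ℝ) ^ (-(3 / 2) : ℝ) ≤ k1 A e d * tt e d := by
      unfold k1 tt
      calc (d : ℝ) ^ (-(3 / 2) : ℝ) ≤ (d : ℝ) ^ (-(e / 100) * (2 : ℕ) + (-(1 / 2) + e)) := hmono _ _ (by push_cast; linarith)
        _ = (d : ℝ) ^ (-(e / 100) * (2 : ℕ)) * (d : ℝ) ^ (-(1 / 2) + e) := Real.rpow_add hd0 _ _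
        _ ≤ qn A e d ^ 2 * (d : ℝ) ^ (-(1 / 2) + e) := mul_le_mul_of_nonneg_right hq2 (Real.rpow_nonneg hd0.le _)
    calc A * S0 e d ^ mm e ≤ A * (d : ℝ) ^ (-2 : ℝ) := mul_le_mul_of_nonneg_left e1 hAp.le
      _ ≤ (d : ℝ) ^ (1 / 2 : ℝ) * (d : ℝ) ^ (-2 : ℝ) := mul_le_mul_of_nonneg_right hA1 (Real.rpow_nonneg hd0.le _)
      _ = (d : ℝ) ^ (-(3 / 2) : ℝ) := by
        rw [← Real.rpow_add hd0]
        norm_num
      _ ≤ _ := e2
  · rw [exp_LL hd1]
    unfold kap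
    exact hmono _ _ (by linarith)
  · unfold kap k2 S0
    refine hA2.trans ?_
    rw [Real.rpow_add hd0]
    exact mul_le_mul_of_nonneg_right hq4 (Real.rpow_nonneg hd0.le _)
  · unfold kap k2
    refine hA3.trans (hq5.trans (le_of_eq ?_))
    ring
  · have := hh_pos hd1
    positivity
  · rw [← mul_assoc]
    exact hh'

/-- `2 ≤ d^(e/2)` -/
theorem two_le {e : ℝ} (he : 0 < e) : ∀ᶠ d : ℕ in atTop, 2 ≤ (d : ℝ) ^ (e / 2) := const_le 2 (by linarith)

end Pool.H91.SR
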