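import Mathlib
import Pool.Agent.H91.PR.Main
import Pool.Agent.H26.SF.BrC

/-!
SHARP RATE (MP_8f2e1c_an), piece 6: from the core statement (large degrees, limits of hyperbolic maps) to the final words.
-/

set_option autoImplicit false

open Filter Topology Polynomial Metric

namespace Pool.H91.SR

open Pool.H70.SF Pool.H26.SF Pool.Agent.H79.Eul Pool.Agent.H32.BT
open Pool.Agent.H79.Par hiding Ph
open Pool.Agent.H85.LD (Nd)
open Pool.Agent.H44.Fatou (Hyp)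

/-- the core statement: large degrees, limits of hyperbolic maps -/
def Core : Prop := ∀ ε : ℝ, 0 < ε → ε ≤ 1 → ∃ C : ℝ, 0 < C ∧ ∃ d0 : ℕ, ∀ d : ℕ, d0 ≤ d → 2 ≤ d →
  ∀ P Q : ℂ[X], P.natDegree ≤ d → Q.natDegree ≤ d → (P ≠ 0 ∨ Q ≠ 0) →
  ∃ X : CV d, (∀ δ : ℝ, 0 < δ → ∃ v ∈ ball X δ, HypDeg v) ∧
    Nd d (P - pol X.1) + Nd d (Q - pol X.2) ≤ C * (d : ℝ) ^ (-1 + ε) * (Nd d P + Nd d Q)

theorem Nd_nonneg (d : ℕ) (P : ℂ[X]) : 0 ≤ Nd d P := by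
  unfold Pool.Agent.H85.LD.Nd
  exact Finset.sum_nonneg fun k _ => by positivity

theorem Nd_pos (d : ℕ) {P : ℂ[X]} (hP : P.natDegree ≤ d) (h : P ≠ 0) : 0 < Nd d P := by
  unfold Pool.Agent.H85.LD.Nd
  have h1 : P.coeff P.natDegree ≠ 0 := by
    rw [coeff_natDegree]
    exact leadingCoeff_ne_zero.2 h
  have h2 : (0 : ℝ) < (d.choose P.natDegree : ℝ) := by exact_mod_cast Nat.choose_pos hP
  refine Finset.sum_pos' (fun k _ => by positivity) ⟨P.natDegree, Finset.mem_range.2 (by omega), ?_⟩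
  have := norm_pos_iff.2 h1
  positivity

private theorem Nd_cont (d : ℕ) (P : ℂ[X]) : Continuous (fun v : Fin (d + 1) → ℂ => Nd d (P - pol v)) := by
  unfold Pool.Agent.H85.LD.Nd
  refine continuous_finsetSum _ fun k hk => ?_
  have hk' : k < d + 1 := Finset.mem_range.1 hk
  have h1 : (fun v : Fin (d + 1) → ℂ => ‖(P - pol v).coeff k‖ ^ 2 / (d.choose k : ℝ)) =
      fun v : Fin (d + 1) → ℂ => ‖P.coeff k - v ⟨k, hk'⟩‖ ^ 2 / (d.choose k : ℝ) := by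
    funext v
    have := Pool.H26.SF.pol_coeff v ⟨k, hk'⟩
    simp only at this
    rw [coeff_sub, this]
  rw [h1]
  fun_prop

/-- small exponents -/
private theorem words_aux (H : Core) {ε : ℝ} (hε : 0 < ε) (hε1 : ε ≤ 1) : ∃ C : ℝ, ∀ d : ℕ, 1 ≤ d → ∀ P Q : ℂ[X],
    P.natDegree ≤ d → Q.natDegree ≤ d → (P ≠ 0 ∨ Q ≠ 0) →
    ∃ P' Q' : ℂ[X], IsCoprime P' Q' ∧ max P'.natDegree Q'.natDegree = d ∧ Hyp P' Q' ∧
      Nd d (P - P') + Nd d (Q - Q') ≤ C * (d : ℝ) ^ (-1 + ε) * (Nd d P + Nd d Q) := by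
  obtain ⟨C, hC, d0, hcore⟩ := H ε hε hε1
  obtain ⟨C1, hC1⟩ := Pool.Agent.H91.PR.power_rate
  refine ⟨max (2 * C) (|C1| * (d0 + 2 : ℝ)), fun d hd P Q hP hQ h0 => ?_⟩
  have hd0 : (0 : ℝ) < d := by exact_mod_cast hd
  have hd1 : (1 : ℝ) ≤ d := by exact_mod_cast hd
  have hN : 0 < Nd d P + Nd d Q := by
    rcases h0 with h | h
    · have := Nd_pos d hP h
      have := Nd_nonneg d Q
      linarith
    · have := Nd_pos d hQ h
      have := Nd_nonneg d P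
      linarith
  have hp : 0 < (d : ℝ) ^ (-1 + ε) := Real.rpow_pos_of_pos hd0 _
  by_cases hlarge : d0 ≤ d ∧ 2 ≤ d
  · obtain ⟨X, hX1, hX2⟩ := hcore d hlarge.1 hlarge.2 P Q hP hQ h0
    have hcont : Continuous (fun v : CV d => Nd d (P - pol v.1) + Nd d (Q - pol v.2)) :=
      ((Nd_cont d P).comp continuous_fst).add ((Nd_cont d Q).comp continuous_snd)
    have hlt : Nd d (P - pol X.1) + Nd d (Q - pol X.2) < 2 * C * (d : ℝ) ^ (-1 + ε) * (Nd d P + Nd d Q) := by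
      have : 0 < C * (d : ℝ) ^ (-1 + ε) * (Nd d P + Nd d Q) := by positivity
      linarith
    have hev : ∀ᶠ v in 𝓝 X, Nd d (P - pol v.1) + Nd d (Q - pol v.2) < 2 * C * (d : ℝ) ^ (-1 + ε) * (Nd d P + Nd d Q) :=
      hcont.continuousAt.eventually (gt_mem_nhds hlt)
    obtain ⟨δ, hδ, hb⟩ := Metric.eventually_nhds_iff_ball.1 hev
    obtain ⟨v, hv, hh⟩ := hX1 δ hδ
    refine ⟨pol v.1, pol v.2, hh.1, hh.2.1, ?_, (hb v hv).le.trans ?_⟩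
    · exact (hyp_iff hh.1 (by rw [hh.2.1]; omega)).2 hh.2.2
    · have h3 : 2 * C ≤ max (2 * C) (|C1| * (d0 + 2 : ℝ)) := le_max_left _ _
      have h4 : 0 ≤ (d : ℝ) ^ (-1 + ε) * (Nd d P + Nd d Q) := by positivity
      calc 2 * C * (d : ℝ) ^ (-1 + ε) * (Nd d P + Nd d Q) = 2 * C * ((d : ℝ) ^ (-1 + ε) * (Nd d P + Nd d Q)) := by ring
        _ ≤ max (2 * C) (|C1| * (d0 + 2 : ℝ)) * ((d : ℝ) ^ (-1 + ε) * (Nd d P + Nd d Q)) := mul_le_mul_of_nonneg_right h3 h4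
        _ = _ := by ring
  · obtain ⟨P', Q', h1, h2, h3, h4⟩ := hC1 d hd P Q hP hQ h0
    refine ⟨P', Q', h1, h2, h3.hyp, h4.trans ?_⟩
    have hds : (d : ℝ) ≤ d0 + 2 := by
      have : d ≤ d0 + 2 := by omega
      exact_mod_cast this
    have e1 : (d : ℝ) ^ (-(1 / 5000 : ℝ)) ≤ 1 := by
      apply Real.rpow_le_one_of_one_le_of_nonpos hd1
      norm_num
    have e2 : (1 : ℝ) ≤ (d0 + 2) * (d : ℝ) ^ (-1 + ε) := by
      have e3 : (d : ℝ) ^ (-1 : ℝ) ≤ (d : ℝ) ^ (-1 + ε) := Real.rpow_le_rpow_of_exponent_le hd1 (by linarith)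
      rw [Real.rpow_neg_one] at e3
      calc (1 : ℝ) = d * (d : ℝ)⁻¹ := by field_simp
        _ ≤ (d0 + 2) * (d : ℝ) ^ (-1 + ε) := mul_le_mul hds e3 (by positivity) (by positivity)
    have e0 : 0 ≤ (d : ℝ) ^ (-(1 / 5000 : ℝ)) := Real.rpow_nonneg hd0.le _
    have e4 : C1 * (d : ℝ) ^ (-(1 / 5000 : ℝ)) ≤ |C1| * ((d0 + 2) * (d : ℝ) ^ (-1 + ε)) := by
      calc C1 * (d : ℝ) ^ (-(1 / 5000 : ℝ)) ≤ |C1| * (d : ℝ) ^ (-(1 / 5000 : ℝ)) := mul_le_mul_of_nonneg_right (le_abs_self _) e0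
        _ ≤ |C1| * ((d0 + 2) * (d : ℝ) ^ (-1 + ε)) := mul_le_mul_of_nonneg_left (e1.trans e2) (abs_nonneg _)
    have e5 : |C1| * ((d0 + 2) * (d : ℝ) ^ (-1 + ε)) ≤ max (2 * C) (|C1| * (d0 + 2 : ℝ)) * (d : ℝ) ^ (-1 + ε) := by
      rw [← mul_assoc]
      exact mul_le_mul_of_nonneg_right (le_max_right _ _) hp.le
    exact mul_le_mul_of_nonneg_right (e4.trans e5) hN.le

/-- the final words -/
theorem words (H : Core) {ε : ℝ} (hε : 0 < ε) : ∃ C : ℝ, ∀ d : ℕ, 1 ≤ d → ∀ P Q : ℂ[X],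
    P.natDegree ≤ d → Q.natDegree ≤ d → (P ≠ 0 ∨ Q ≠ 0) →
    ∃ P' Q' : ℂ[X], IsCoprime P' Q' ∧ max P'.natDegree Q'.natDegree = d ∧ Hyp P' Q' ∧
      Nd d (P - P') + Nd d (Q - Q') ≤ C * (d : ℝ) ^ (-1 + ε) * (Nd d P + Nd d Q) := by
  obtain ⟨C, hC⟩ := words_aux H (ε := min ε 1) (lt_min hε one_pos) (min_le_right _ _)
  refine ⟨|C|, fun d hd P Q hP hQ h0 => ?_⟩
  obtain ⟨P', Q', h1, h2, h3, h4⟩ := hC d hd P Q hP hQ h0
  refine ⟨P', Q', h1, h2, h3, h4.trans ?_⟩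
  have hd1 : (1 : ℝ) ≤ d := by exact_mod_cast hd
  have e1 : (d : ℝ) ^ (-1 + min ε 1) ≤ (d : ℝ) ^ (-1 + ε) := Real.rpow_le_rpow_of_exponent_le hd1 (by
    have := min_le_left ε 1
    linarith)
  have e0 : 0 ≤ (d : ℝ) ^ (-1 + min ε 1) := Real.rpow_nonneg (by linarith) _
  have hN : 0 ≤ Nd d P + Nd d Q := add_nonneg (Nd_nonneg d P) (Nd_nonneg d Q)
  apply mul_le_mul_of_nonneg_right _ hN
  calc C * (d : ℝ) ^ (-1 + min ε 1) ≤ |C| * (d : ℝ) ^ (-1 + min ε 1) := mul_le_mul_of_nonneg_right (le_abs_self _) e0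
    _ ≤ |C| * (d : ℝ) ^ (-1 + ε) := mul_le_mul_of_nonneg_left e1 (abs_nonneg _)

end Pool.H91.SR
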