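import Mathlib
import Pool.Agent.H26.SF.BrC
import Pool.Agent.H47.SF.Hom

/-!
SHARP RATE (MP_8f2e1c_an), piece 6: limits of critical points and critical orbits in homogeneous coordinates.

`hurw_crit`: near a nondegenerate map every map has a critical point near a given one (Hurwitz).
`ob_cont`: continuity of the orbit points.  `limit_closed`: closed conditions on critical orbits pass to the limit.
`main_limit`: the limit map is a limit of hyperbolic maps (via `bridge`).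
-/

set_option autoImplicit false

open Filter Topology Polynomial Metric

namespace Pool.H91.SR

open Pool.H70.SF Pool.H26.SF Pool.Agent.H79.Eul Pool.Agent.H32.BT
open Pool.Agent.H79.Par hiding Ph

variable {d : ℕ}

theorem hev1_pol (p : Fin (d + 1) → ℂ) (z : ℂ) : hev1 p (z, 1) = (derivative (pol p)).eval z := by
  have h1 := Pool.H26.SF.hev_line p (z, 1) (1, 0) 0
  have h2 : (fun t : ℂ => hev p ((z, 1) + t • (1, 0))) = fun t : ℂ => (pol p).eval (z + t) := by
    funext t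
    rw [Pool.H26.SF.pol_eval]
    congr 1
    ext
    · simp
    · simp
  rw [h2] at h1
  have h3 : HasDerivAt (fun t : ℂ => (pol p).eval (z + t)) ((derivative (pol p)).eval (z + 0)) 0 :=
    ((pol p).hasDerivAt (z + 0)).comp_const_add z 0
  have h4 := h1.unique h3
  simpa using h4

theorem JJ_pol (X : CV d) (z : ℂ) : JJ X (z, 1) = (d : ℂ) *
    ((derivative (pol X.1)).eval z * (pol X.2).eval z - (pol X.1).eval z * (derivative (pol X.2)).eval z) := by
  have h1 := Pool.H26.SF.hev_euler X.1 (z, 1)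
  have h2 := Pool.H26.SF.hev_euler X.2 (z, 1)
  rw [hev1_pol, ← Pool.H26.SF.pol_eval] at h1 h2
  simp only at h1 h2
  unfold JJ
  rw [hev1_pol, hev1_pol]
  linear_combination (derivative (pol X.1)).eval z * h2 - (derivative (pol X.2)).eval z * h1

/-- the Jacobian does not vanish identically -/
theorem JJ_ne (hd : 1 ≤ d) {X : CV d} (h : Nz X) {c : ℂ × ℂ} (hc : IsU c) : ∃ t : ℂ, JJ X (c + t • qq c) ≠ 0 := by
  have hd0 : (d : ℂ) ≠ 0 := by
    have : d ≠ 0 := by omega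
    exact_mod_cast this
  obtain ⟨w, hw⟩ : ∃ w : ℂ[X], w = derivative (pol X.1) * pol X.2 - pol X.1 * derivative (pol X.2) := ⟨_, rfl⟩
  have hw0 : w ≠ 0 := by
    intro h0
    have h1 : wronskian (pol X.1) (pol X.2) = 0 := by
      unfold wronskian
      rw [h0] at hw
      linear_combination hw
    rw [h.coprime.wronskian_eq_zero_iff] at h1
    have h2 := derivative_eq_zero.1 h1.1
    have h3 := derivative_eq_zero.1 h1.2
    have h4 := h.deg
    rw [h2, h3] at h4
    simp at h4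
    omega
  have hl0 : (C ((starRingEnd ℂ) c.1) * Polynomial.X + C ((starRingEnd ℂ) c.2) : ℂ[X]) ≠ 0 := by
    intro h0
    have h1 := congrArg (fun p : ℂ[X] => p.coeff 1) h0
    have h2 := congrArg (fun p : ℂ[X] => p.coeff 0) h0
    simp only [coeff_add, coeff_C_mul, coeff_X_one, mul_one, coeff_C_succ, add_zero, coeff_zero, coeff_X_zero, mul_zero,
      coeff_C_zero, zero_add] at h1 h2
    have h3 : ‖c.1‖ ^ 2 + ‖c.2‖ ^ 2 = 1 := hc
    rw [map_eq_zero] at h1 h2
    rw [h1, h2] at h3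
    simp at h3
  obtain ⟨z, hz⟩ : ∃ z : ℂ, (w * (C ((starRingEnd ℂ) c.1) * Polynomial.X + C ((starRingEnd ℂ) c.2))).eval z ≠ 0 := by
    by_contra hcon
    push Not at hcon
    exact mul_ne_zero hw0 hl0 (Polynomial.funext (fun z => by rw [hcon z, eval_zero]))
  rw [eval_mul, mul_ne_zero_iff] at hz
  have ha : cu c (z, 1) ≠ 0 := by
    have h1 := hz.2
    rw [eval_add, eval_mul, eval_C, eval_X, eval_C] at h1
    unfold cu
    simp only
    rwa [one_mul, mul_comm]
  have hJ : JJ X (z, 1) ≠ 0 := by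
    rw [JJ_pol]
    refine mul_ne_zero hd0 ?_
    have h1 := hz.1
    rw [hw, eval_sub, eval_mul, eval_mul] at h1
    exact h1
  refine ⟨wd c (z, 1) / cu c (z, 1), fun h0 => hJ ?_⟩
  have h1 := decomp hc (z, 1)
  have h2 : (z, (1 : ℂ)) = cu c (z, 1) • (c + (wd c (z, 1) / cu c (z, 1)) • qq c) := by
    rw [smul_add, smul_smul, mul_div_cancel₀ _ ha]
    exact h1
  rw [h2, Pool.Agent.H47.SF.JJ_smul, h0, mul_zero]

theorem JJ_cont2 : Continuous (fun p : CV d × (ℂ × ℂ) => JJ p.1 p.2) := by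
  unfold JJ hev1 hev2
  fun_prop

theorem FF_cont2 : Continuous (fun p : CV d × (ℂ × ℂ) => FF p.1 p.2) := by
  unfold FF hev
  fun_prop

theorem JJ_cc {A : Type} [TopologicalSpace A] {f : A → CV d} {g : A → ℂ × ℂ} (hf : Continuous f) (hg : Continuous g) :
    Continuous (fun a => JJ (f a) (g a)) :=
  Continuous.comp (g := fun p : CV d × (ℂ × ℂ) => JJ p.1 p.2) (f := fun a => (f a, g a)) JJ_cont2 (hf.prodMk hg)

theorem JJ_diff (X : CV d) (c q : ℂ × ℂ) : Differentiable ℂ (fun t : ℂ => JJ X (c + t • q)) := by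
  unfold JJ hev1 hev2
  simp only [Prod.fst_add, Prod.snd_add, Prod.smul_fst, Prod.smul_snd, smul_eq_mul]
  fun_prop

/-- the unit vector in direction `c + t q` -/
private noncomputable def un (c : ℂ × ℂ) (t : ℂ) : ℂ × ℂ :=
  (((√(n2 (c + t • qq c)))⁻¹ : ℝ) : ℂ) • (c + t • qq c)

private theorem un_pos {c : ℂ × ℂ} (hc : IsU c) (t : ℂ) : 0 < n2 (c + t • qq c) := by
  apply n2_pos
  by_contra hcon
  push Not at hcon
  have h1 : wd (c + t • qq c) (qq c) = 1 := by
    have h2 := wd_qq hc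
    unfold wd at h2 ⊢
    simp only [Prod.fst_add, Prod.snd_add, Prod.smul_fst, Prod.smul_snd, smul_eq_mul]
    linear_combination h2
  unfold wd at h1
  rw [hcon.1, hcon.2] at h1
  simp at h1

private theorem un_unit {c : ℂ × ℂ} (hc : IsU c) (t : ℂ) : IsU (un c t) := by
  have h1 := un_pos hc t
  unfold IsU un
  rw [Pool.Agent.H47.SF.n2_smul, Complex.norm_real, Real.norm_eq_abs, abs_of_nonneg (by positivity), inv_pow,
    Real.sq_sqrt h1.le]
  exact inv_mul_cancel₀ h1.ne'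

private theorem un_cont {c : ℂ × ℂ} (hc : IsU c) : Continuous (un c) := by
  unfold un
  have h1 : Continuous (fun t : ℂ => c + t • qq c) := by fun_prop
  have h2 : Continuous (fun t : ℂ => n2 (c + t • qq c)) := n2_cont.comp h1
  have h3 : Continuous (fun t : ℂ => (√(n2 (c + t • qq c)))⁻¹) :=
    (Real.continuous_sqrt.comp h2).inv₀ (fun t => (Real.sqrt_pos.2 (un_pos hc t)).ne')
  exact (Complex.continuous_ofReal.comp h3).smul h1

private theorem un_zero {c : ℂ × ℂ} (hc : IsU c) : un c 0 = c := by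
  unfold un
  have h1 : n2 (c + (0 : ℂ) • qq c) = 1 := by
    rw [zero_smul, add_zero]
    exact hc
  rw [h1]
  simp

/-- Hurwitz, abstract form -/
theorem hurw_abs {Y : Type} [TopologicalSpace Y] {f : Y → ℂ → ℂ} {y0 : Y} (hf : Continuous (fun p : Y × ℂ => f p.1 p.2))
    (hfd : ∀ y, Differentiable ℂ (f y)) (hex : ∃ t, f y0 t ≠ 0) (hf0 : f y0 0 = 0) {r0 : ℝ} (hr0 : 0 < r0) :
    ∀ᶠ y in 𝓝 y0, ∃ t, ‖t‖ < r0 ∧ f y t = 0 := by
  have hne : ∀ᶠ t in 𝓝[≠] (0 : ℂ), f y0 t ≠ 0 := by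
    have ha : AnalyticAt ℂ (f y0) 0 := (hfd y0).analyticAt 0
    rcases ha.eventually_eq_zero_or_eventually_ne_zero with h1 | h1
    · exfalso
      obtain ⟨t, ht⟩ := hex
      have h2 : AnalyticOnNhd ℂ (f y0) Set.univ := fun z _ => (hfd y0).analyticAt z
      have h4 := h2.eq_of_eventuallyEq (g := fun _ => (0 : ℂ)) (z₀ := 0) analyticOnNhd_const h1
      exact ht (congrFun h4 t)
    · exact h1
  rw [eventually_nhdsWithin_iff] at hne
  obtain ⟨r1, hr1p, hr1⟩ := Metric.eventually_nhds_iff_ball.1 hne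
  obtain ⟨r, hrdef⟩ : ∃ r, r = min (r0 / 2) (r1 / 2) := ⟨_, rfl⟩
  have hrp : 0 < r := by rw [hrdef]; exact lt_min (by linarith) (by linarith)
  have hrr0 : r < r0 := by rw [hrdef]; exact lt_of_le_of_lt (min_le_left _ _) (by linarith)
  have hrr1 : r < r1 := by rw [hrdef]; exact lt_of_le_of_lt (min_le_right _ _) (by linarith)
  have hr2 : ∀ t : ℂ, ‖t‖ = r → f y0 t ≠ 0 := by
    intro t ht
    refine hr1 t (by rw [mem_ball_zero_iff]; linarith) ?_
    intro h0
    have : t = 0 := h0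
    rw [this, norm_zero] at ht
    linarith
  obtain ⟨t0, ht0, hmin⟩ := (isCompact_sphere (0 : ℂ) r).exists_isMinOn (NormedSpace.sphere_nonempty.2 hrp.le)
    ((hfd y0).continuous.norm.continuousOn)
  obtain ⟨m, hm⟩ : ∃ m, m = ‖f y0 t0‖ := ⟨_, rfl⟩
  have hmp : 0 < m := by
    rw [hm]
    exact norm_pos_iff.2 (hr2 t0 (mem_sphere_zero_iff_norm.1 ht0))
  have hml : ∀ t : ℂ, ‖t‖ = r → m ≤ ‖f y0 t‖ := by
    intro t ht
    rw [hm]
    exact hmin (mem_sphere_zero_iff_norm.2 ht)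
  have hunif : ∀ᶠ y in 𝓝 y0, ∀ t ∈ closedBall (0 : ℂ) r, ‖f y t - f y0 t‖ < m / 8 := by
    apply (isCompact_closedBall (0 : ℂ) r).eventually_forall_of_forall_eventually
    intro t _
    have hcont : Continuous (fun p : Y × ℂ => ‖f p.1 p.2 - f y0 p.2‖) := by
      have h4 : Continuous (fun p : Y × ℂ => f y0 p.2) := (hfd y0).continuous.comp continuous_snd
      exact (hf.sub h4).norm
    have h5 := hcont.tendsto (y0, t)
    have h6 : ‖f (y0, t).1 (y0, t).2 - f y0 (y0, t).2‖ = 0 := by simp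
    rw [h6] at h5
    exact h5.eventually (gt_mem_nhds (by positivity))
  filter_upwards [hunif] with y hX
  have hX0 : ‖f y 0‖ < m / 8 := by
    have := hX 0 (by rw [mem_closedBall_zero_iff, norm_zero]; exact hrp.le)
    rwa [hf0, sub_zero] at this
  have hXs : ∀ t ∈ sphere (0 : ℂ) r, m / 2 ≤ ‖f y t - f y 0‖ := by
    intro t ht
    have ht' := mem_sphere_zero_iff_norm.1 ht
    have h3 := hX t (sphere_subset_closedBall ht)
    have h4 := hml t ht'
    have h5 : ‖f y0 t‖ ≤ ‖f y t - f y 0‖ + ‖f y 0‖ + ‖f y t - f y0 t‖ := by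
      have e : f y0 t = (f y t - f y 0) + f y 0 - (f y t - f y0 t) := by ring
      calc ‖f y0 t‖ = ‖(f y t - f y 0) + f y 0 - (f y t - f y0 t)‖ := by rw [← e]
        _ ≤ ‖(f y t - f y 0) + f y 0‖ + ‖f y t - f y0 t‖ := norm_sub_le _ _
        _ ≤ _ := by
          have := norm_add_le (f y t - f y 0) (f y 0)
          linarith
    linarith
  have himg := ((hfd y).diffContOnCl (s := ball (0 : ℂ) r)).ball_subset_image_closedBall hrp hXs (by
    by_contra hcon
    rw [Filter.not_frequently] at hcon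
    simp only [not_not] at hcon
    have h3 : AnalyticOnNhd ℂ (f y) Set.univ := fun z _ => (hfd y).analyticAt z
    have h4 := h3.eq_of_eventuallyEq (g := fun _ => f y 0) (z₀ := 0) analyticOnNhd_const hcon
    have h5 := hXs (r : ℂ) (by rw [mem_sphere_zero_iff_norm, Complex.norm_real, Real.norm_eq_abs, abs_of_pos hrp])
    have h6 := congrFun h4 (r : ℂ)
    rw [h6, sub_self, norm_zero] at h5
    linarith)
  have h0mem : (0 : ℂ) ∈ ball (f y 0) (m / 2 / 2) := by
    rw [mem_ball, dist_eq_norm, zero_sub, norm_neg]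
    linarith
  obtain ⟨t, ht, hft⟩ := himg h0mem
  rw [mem_closedBall_zero_iff] at ht
  exact ⟨t, by linarith, hft⟩

/-- Hurwitz for critical points -/
theorem hurw_crit (hd : 1 ≤ d) {Xi : CV d} (h : Nz Xi) {c : ℂ × ℂ} (hc : IsU c) (hJ : JJ Xi c = 0) {δ : ℝ} (hδ : 0 < δ) :
    ∀ᶠ X in 𝓝 Xi, ∃ c', IsU c' ∧ JJ X c' = 0 ∧ ‖c' - c‖ < δ := by
  have hcu := (un_cont hc).tendsto 0
  rw [un_zero hc] at hcu
  have h2 : ∀ᶠ t in 𝓝 (0 : ℂ), ‖un c t - c‖ < δ := by
    have := hcu.eventually (Metric.ball_mem_nhds c hδ)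
    filter_upwards [this] with t ht
    rwa [← dist_eq_norm]
  obtain ⟨r0, hr0, hr⟩ := Metric.eventually_nhds_iff_ball.1 h2
  have h3 : Continuous (fun p : CV d × ℂ => JJ p.1 (c + p.2 • qq c)) := JJ_cc continuous_fst (by fun_prop)
  have h4 := hurw_abs (f := fun (X : CV d) (t : ℂ) => JJ X (c + t • qq c)) (y0 := Xi) h3 (fun X => JJ_diff X c (qq c))
    (JJ_ne hd h hc) (by rw [zero_smul, add_zero]; exact hJ) hr0
  filter_upwards [h4] with X hX
  obtain ⟨t, ht, hft⟩ := hX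
  refine ⟨un c t, un_unit hc t, ?_, hr t (by rw [mem_ball_zero_iff]; exact ht)⟩
  have hft' : JJ X (c + t • qq c) = 0 := hft
  unfold un
  rw [Pool.Agent.H47.SF.JJ_smul, hft', mul_zero]

theorem nx_cont2 {X : CV d} {u : ℂ × ℂ} (h : 0 < n2 (FF X u)) :
    ContinuousAt (fun p : CV d × (ℂ × ℂ) => nx p.1 p.2) (X, u) := by
  unfold nx
  have h1 : ContinuousAt (fun p : CV d × (ℂ × ℂ) => FF p.1 p.2) (X, u) := FF_cont2.continuousAt
  have h2 : ContinuousAt (fun p : CV d × (ℂ × ℂ) => n2 (FF p.1 p.2)) (X, u) := (n2_cont.comp FF_cont2).continuousAt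
  have h3 : ContinuousAt (fun p : CV d × (ℂ × ℂ) => (√(n2 (FF p.1 p.2)))⁻¹) (X, u) :=
    (Real.continuous_sqrt.continuousAt.comp h2).inv₀ (Real.sqrt_pos.2 h).ne'
  exact (Complex.continuous_ofReal.continuousAt.comp h3).smul h1

theorem nx_cc {A : Type} [TopologicalSpace A] {f : A → CV d} {g : A → ℂ × ℂ} {a : A} (hf : ContinuousAt f a)
    (hg : ContinuousAt g a) (h : 0 < n2 (FF (f a) (g a))) : ContinuousAt (fun x => nx (f x) (g x)) a :=
  ContinuousAt.comp (g := fun p : CV d × (ℂ × ℂ) => nx p.1 p.2) (f := fun x => (f x, g x)) (nx_cont2 h) (hf.prodMk hg)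

/-- continuity of the orbit points in the map and the critical point -/
theorem ob_cont {X : CV d} (h : Nz X) {c : ℂ × ℂ} (hc : IsU c) (j : ℕ) :
    ContinuousAt (fun p : CV d × (ℂ × ℂ) => ob p.1 p.2 j) (X, c) := by
  induction j with
  | zero => exact nx_cc continuousAt_fst continuousAt_snd (h c hc)
  | succ j ih =>
    have h1 := (h.ob hc j).1
    exact nx_cc continuousAt_fst ih (h _ h1)

/-- closed conditions on the critical orbits pass to the limit -/
theorem limit_closed (hd : 1 ≤ d) {Xs : ℕ → CV d} {Xi : CV d} (hX : Tendsto Xs atTop (𝓝 Xi)) (hN : Nz Xi)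
    {g : (ℂ × ℂ) × (ℂ × ℂ) → ℝ} (hg : Continuous g) {L : ℝ} {i j : ℕ}
    (H : ∀ᶠ s in atTop, ∀ c, IsU c → JJ (Xs s) c = 0 → L ≤ g (ob (Xs s) c i, ob (Xs s) c j))
    {c : ℂ × ℂ} (hc : IsU c) (hJ : JJ Xi c = 0) : L ≤ g (ob Xi c i, ob Xi c j) := by
  by_contra hcon
  push Not at hcon
  have h1 : ContinuousAt (fun p : CV d × (ℂ × ℂ) => g (ob p.1 p.2 i, ob p.1 p.2 j)) (Xi, c) :=
    ContinuousAt.comp (g := g) (f := fun p : CV d × (ℂ × ℂ) => (ob p.1 p.2 i, ob p.1 p.2 j)) hg.continuousAt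
      ((ob_cont hN hc i).prodMk (ob_cont hN hc j))
  have h2 : ∀ᶠ p in 𝓝 (Xi, c), g (ob p.1 p.2 i, ob p.1 p.2 j) < L := h1.eventually (gt_mem_nhds hcon)
  rw [nhds_prod_eq, Filter.eventually_prod_iff] at h2
  obtain ⟨pa, hpa, pb, hpb, h3⟩ := h2
  obtain ⟨δ, hδ, hb⟩ := Metric.eventually_nhds_iff_ball.1 hpb
  have h4 := hX.eventually (hpa.and (hurw_crit hd hN hc hJ hδ))
  obtain ⟨s, hs, hH⟩ := (h4.and H).exists
  obtain ⟨c', hc', hJ', hcc⟩ := hs.2
  have h5 := h3 hs.1 (hb c' (by rw [mem_ball, dist_eq_norm]; exact hcc))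
  have h6 := hH c' hc' hJ'
  simp only at h5
  linarith

theorem Ph_pow {X : CV d} {c : ℂ × ℂ} (h : ∀ j, 2 ≤ ‖al X c j‖) (n : ℕ) : (2 : ℝ) ^ n ≤ Ph X c n := by
  unfold Ph
  calc (2 : ℝ) ^ n = ∏ _l ∈ Finset.range n, (2 : ℝ) := by rw [Finset.prod_const, Finset.card_range]
    _ ≤ _ := Finset.prod_le_prod (fun _ _ => by norm_num) (fun l _ => h l)

/-- the degree is at least 2: there is a critical point -/
theorem exists_crit (hd : 2 ≤ d) {X : CV d} (h : Nz X) : ∃ c, IsU c ∧ JJ X c = 0 := by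
  by_cases h0 : JJ X (1, 0) = 0
  · exact ⟨(1, 0), by unfold IsU n2; simp, h0⟩
  · -- the polynomial JJ X (z, 1) has degree 2d - 2 with leading coefficient JJ X (1, 0)
    obtain ⟨w, hw⟩ : ∃ w : ℂ[X], w = derivative (pol X.1) * pol X.2 - pol X.1 * derivative (pol X.2) := ⟨_, rfl⟩
    have hroot : ∃ z, w.eval z = 0 := by
      by_contra hcon
      push Not at hcon
      have hdeg : w.degree = 0 := by
        by_contra hne
        obtain ⟨z, hz⟩ := IsAlgClosed.exists_root w hne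
        exact hcon z hz
      have hC := eq_C_of_degree_eq_zero hdeg
      apply h0
      -- JJ X (1, s) = s^(2d-2) JJ X (1/s, 1) → 0
      have hcont : Continuous (fun s : ℂ => JJ X (1, s)) := JJ_cc continuous_const (by fun_prop)
      have hval : ∀ s : ℂ, s ≠ 0 → JJ X (1, s) = s ^ (2 * (d - 1)) * (d * w.coeff 0) := by
        intro s hs
        have e1 : ((1 : ℂ), s) = s • (1 / s, (1 : ℂ)) := by
          ext
          · simp only [Prod.smul_fst, smul_eq_mul]
            field_simp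
          · simp
        rw [e1, Pool.Agent.H47.SF.JJ_smul, JJ_pol]
        congr 2
        have e2 : w.eval (1 / s) = w.coeff 0 := by rw [hC]; simp
        rw [← e2, hw, eval_sub, eval_mul, eval_mul]
      have hlim : Tendsto (fun s : ℂ => s ^ (2 * (d - 1)) * (d * w.coeff 0)) (𝓝[≠] 0) (𝓝 0) := by
        have h1 : Continuous (fun s : ℂ => s ^ (2 * (d - 1)) * ((d : ℂ) * w.coeff 0)) := by fun_prop
        have h2 := h1.tendsto 0
        rw [zero_pow (by omega), zero_mul] at h2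
        exact h2.mono_left nhdsWithin_le_nhds
      have hlim2 : Tendsto (fun s : ℂ => JJ X (1, s)) (𝓝[≠] 0) (𝓝 0) := by
        refine hlim.congr' ?_
        filter_upwards [self_mem_nhdsWithin] with s hs
        exact (hval s hs).symm
      exact tendsto_nhds_unique ((hcont.tendsto 0).mono_left nhdsWithin_le_nhds) hlim2
    obtain ⟨z, hz⟩ := hroot
    have hJz : JJ X (z, 1) = 0 := by
      rw [JJ_pol]
      rw [hw, eval_sub, eval_mul, eval_mul] at hz
      rw [hz, mul_zero]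
    obtain ⟨a, v, ha, hv, hav⟩ := exists_unit (u := (z, (1 : ℂ))) (Or.inr one_ne_zero)
    refine ⟨v, hv, ?_⟩
    rw [hav, Pool.Agent.H47.SF.JJ_smul] at hJz
    exact (mul_eq_zero.1 hJz).resolve_left (pow_ne_zero _ ha)

/-- the limit of the stages is a limit of hyperbolic maps -/
theorem main_limit (hd : 2 ≤ d) {Xs : ℕ → CV d} {Xi : CV d} (hX : Tendsto Xs atTop (𝓝 Xi)) (hN : Nz Xi)
    {Z : Set (ℂ × ℂ)} {δ : ℝ} (hexp : ∀ y, IsU y → (∀ z ∈ Z, δ ≤ ‖wd y z‖) → 2 ≤ ‖aa Xi y‖)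
    (H1 : ∀ j, ∀ᶠ s in atTop, ∀ c, IsU c → JJ (Xs s) c = 0 → ∀ z ∈ Z, δ ≤ ‖wd (ob (Xs s) c j) z‖)
    (H2 : ∀ i j, i < j → ∃ L : ℝ, 0 < L ∧ ∀ᶠ s in atTop, ∀ c, IsU c → JJ (Xs s) c = 0 →
      L ≤ ‖wd (ob (Xs s) c i) (ob (Xs s) c j)‖) {ε : ℝ} (hε : 0 < ε) : ∃ w ∈ ball Xi ε, HypDeg w := by
  have hwd : Continuous (fun p : (ℂ × ℂ) × (ℂ × ℂ) => ‖wd p.1 p.2‖) := by
    unfold wd
    fun_prop
  have hgood : ∀ c, IsU c → JJ Xi c = 0 → ∀ j, 2 ≤ ‖al Xi c j‖ := by
    intro c hc hJ j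
    unfold al
    refine hexp _ (hN.ob hc j).1 ?_
    intro z hz
    have hg : Continuous (fun p : (ℂ × ℂ) × (ℂ × ℂ) => ‖wd p.1 z‖) :=
      hwd.comp (continuous_fst.prodMk continuous_const)
    exact limit_closed (by omega) hX hN hg (i := j) (j := j) (by
      filter_upwards [H1 j] with s hs c hc hJ
      exact hs c hc hJ z hz) hc hJ
  refine bridge hd hN (fun c hc hJ => ⟨1, 2, one_pos, by norm_num, fun n => ?_⟩) ?_ hε
  · rw [one_mul]
    exact Ph_pow (hgood c hc hJ) n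
  · obtain ⟨c, hc, hJ⟩ := exists_crit hd hN
    refine ⟨c, hc, hJ, ?_⟩
    intro n m hnm h0
    obtain ⟨L, hL, hev⟩ := H2 n m hnm
    have h1 := limit_closed (by omega) hX hN hwd hev hc hJ
    simp only at h1
    rw [h0, norm_zero] at h1
    linarith

end Pool.H91.SR
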