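import Mathlib
import Pool.Agent.H91.PR.Main
import Pool.Agent.H91.SR.Chb

/-!
SHARP RATE (MP_8f2e1c_an), piece 6: the limit of the sequence of stages.

If `wm d (P (s+1) - P s) z ≤ σ s * w z` with a summable `σ` then the polynomials `P s` converge coefficientwise to a
polynomial `P` with `wm d (P - P s) z ≤ (∑_{k ≥ s} σ k) w z`.
-/

set_option autoImplicit false

open Filter Topology Polynomial Metric MeasureTheory

namespace Pool.H91.SR

open Pool.Agent.H85.LD Pool.Agent.H91.LD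

theorem coeff_Nd (d : ℕ) (G : ℂ[X]) {k : ℕ} (hk : k ≤ d) : ‖G.coeff k‖ ^ 2 ≤ d.choose k * Nd d G := by
  have h2 : (0 : ℝ) < (d.choose k : ℝ) := by exact_mod_cast Nat.choose_pos hk
  have h3 : ‖G.coeff k‖ ^ 2 / (d.choose k : ℝ) ≤ Nd d G := by
    unfold Nd
    exact Finset.single_le_sum (f := fun k => ‖G.coeff k‖ ^ 2 / (d.choose k : ℝ)) (fun i _ => by positivity)
      (Finset.mem_range.2 (by omega))
  rw [div_le_iff₀ h2] at h3
  linarith

/-- coefficients are controlled by the weighted modulus -/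
theorem coeff_wm (d : ℕ) (w : ℂ → ℝ) (hw2 : Integrable (fun z => w z ^ 2) mu) :
    ∃ K : ℝ, 0 ≤ K ∧ ∀ (G : ℂ[X]), G.natDegree ≤ d → ∀ σ : ℝ, 0 ≤ σ → (∀ z, wm d G z ≤ σ * w z) →
      ∀ k, ‖G.coeff k‖ ≤ K * σ := by
  obtain ⟨I, hI⟩ : ∃ I : ℝ, I = (d + 1) * ∫ z, w z ^ 2 ∂mu := ⟨_, rfl⟩
  have hI0 : 0 ≤ I := by
    rw [hI]
    have : 0 ≤ ∫ z, w z ^ 2 ∂mu := integral_nonneg fun z => by positivity
    positivity
  refine ⟨√(2 ^ d * I), Real.sqrt_nonneg _, fun G hG σ hσ h k => ?_⟩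
  by_cases hk : k ≤ d
  · have h1 := coeff_Nd d G hk
    have h2 := Nd_le d w hw2 G hG σ hσ h
    rw [← hI] at h2
    have h3 : (d.choose k : ℝ) ≤ 2 ^ d := by
      have : d.choose k ≤ 2 ^ d := by
        rw [← Nat.sum_range_choose]
        exact Finset.single_le_sum (f := fun k => d.choose k) (fun i _ => Nat.zero_le _) (Finset.mem_range.2 (by omega))
      exact_mod_cast this
    have h4 : ‖G.coeff k‖ ^ 2 ≤ (√(2 ^ d * I) * σ) ^ 2 := by
      rw [mul_pow, Real.sq_sqrt (by positivity)]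
      calc ‖G.coeff k‖ ^ 2 ≤ d.choose k * Nd d G := h1
        _ ≤ 2 ^ d * (σ ^ 2 * I) := mul_le_mul h3 h2 (by
          unfold Nd
          exact Finset.sum_nonneg fun k _ => by positivity) (by positivity)
        _ = 2 ^ d * I * σ ^ 2 := by ring
    exact le_of_sq_le_sq h4 (by positivity)
  · rw [coeff_eq_zero_of_natDegree_lt (by omega), norm_zero]
    positivity

theorem wm_sub_comm (d : ℕ) (P Q : ℂ[X]) (z : ℂ) : wm d (P - Q) z = wm d (Q - P) z := by
  unfold wm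
  rw [eval_sub, eval_sub, norm_sub_rev]

theorem wm_telescope (d : ℕ) (w : ℂ → ℝ) (Ps : ℕ → ℂ[X]) (σ : ℕ → ℝ) (h : ∀ s z, wm d (Ps (s + 1) - Ps s) z ≤ σ s * w z)
    (s n : ℕ) (z : ℂ) : wm d (Ps (s + n) - Ps s) z ≤ (∑ k ∈ Finset.range n, σ (s + k)) * w z := by
  induction n with
  | zero =>
    unfold wm
    simp
  | succ n ih =>
    have h1 : Ps (s + (n + 1)) - Ps s = (Ps (s + n) - Ps s) + (Ps (s + n + 1) - Ps (s + n)) := by
      rw [← add_assoc]
      ring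
    rw [h1, Finset.sum_range_succ, add_mul]
    refine (wm_add_le _ _ _ _).trans ?_
    exact add_le_add ih (h (s + n) z)

/-- the limit of one sequence of polynomials -/
theorem seq_one (d : ℕ) (w : ℂ → ℝ) (hw : ∀ z, 0 < w z) (hw2 : Integrable (fun z => w z ^ 2) mu) (Ps : ℕ → ℂ[X])
    (hP : ∀ s, (Ps s).natDegree ≤ d) (σ : ℕ → ℝ) (hσ0 : ∀ s, 0 ≤ σ s) (hσ : Summable σ)
    (h : ∀ s z, wm d (Ps (s + 1) - Ps s) z ≤ σ s * w z) :
    ∃ P : ℂ[X], P.natDegree ≤ d ∧ (∀ k, Tendsto (fun s => (Ps s).coeff k) atTop (𝓝 (P.coeff k))) ∧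
      ∀ s z, wm d (P - Ps s) z ≤ (∑' k, σ (s + k)) * w z := by
  obtain ⟨K, hK, hcoef⟩ := coeff_wm d w hw2
  have hc : ∀ k, CauchySeq (fun s => (Ps s).coeff k) := by
    intro k
    refine cauchySeq_of_dist_le_of_summable (fun s => K * σ s) (fun s => ?_) (hσ.mul_left K)
    rw [dist_comm, dist_eq_norm, ← coeff_sub]
    exact hcoef _ ((natDegree_sub_le _ _).trans (max_le (hP _) (hP _))) _ (hσ0 s) (h s) k
  have hlim : ∀ k, ∃ a, Tendsto (fun s => (Ps s).coeff k) atTop (𝓝 a) := fun k => cauchySeq_tendsto_of_complete (hc k)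
  choose a ha using hlim
  obtain ⟨P, hPdef⟩ : ∃ P : ℂ[X], P = ∑ k ∈ Finset.range (d + 1), C (a k) * X ^ k := ⟨_, rfl⟩
  have hPc : ∀ k, P.coeff k = if k ≤ d then a k else 0 := by
    intro k
    rw [hPdef, finsetSum_coeff]
    simp only [coeff_C_mul, coeff_X_pow, mul_ite, mul_one, mul_zero]
    rw [Finset.sum_ite_eq]
    by_cases hk : k ≤ d
    · rw [if_pos (Finset.mem_range.2 (by omega)), if_pos hk]
    · rw [if_neg (by rw [Finset.mem_range]; omega), if_neg hk]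
  have hPd : P.natDegree ≤ d := by
    rw [natDegree_le_iff_coeff_eq_zero]
    intro k hk
    rw [hPc, if_neg (by omega)]
  have htend : ∀ k, Tendsto (fun s => (Ps s).coeff k) atTop (𝓝 (P.coeff k)) := by
    intro k
    rw [hPc]
    split_ifs with hk
    · exact ha k
    · refine tendsto_const_nhds.congr fun s => ?_
      rw [coeff_eq_zero_of_natDegree_lt]
      have := hP s
      omega
  refine ⟨P, hPd, htend, ?_⟩
  intro s z
  -- pass to the limit in the telescoping bound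
  have heval : Tendsto (fun n => (Ps n).eval z) atTop (𝓝 (P.eval z)) := by
    have h1 : ∀ Q : ℂ[X], Q.natDegree ≤ d → Q.eval z = ∑ k ∈ Finset.range (d + 1), Q.coeff k * z ^ k := by
      intro Q hQ
      exact eval_eq_sum_range' (Nat.lt_succ_of_le hQ) z
    rw [h1 P hPd]
    have h2 : (fun n => (Ps n).eval z) = fun n => ∑ k ∈ Finset.range (d + 1), (Ps n).coeff k * z ^ k := by
      funext n
      exact h1 _ (hP n)
    rw [h2]
    exact tendsto_finsetSum _ fun k _ => (htend k).mul_const _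
  have hwm : Tendsto (fun n => wm d (Ps (s + n) - Ps s) z) atTop (𝓝 (wm d (P - Ps s) z)) := by
    unfold wm
    have h3 : Tendsto (fun n => (Ps (s + n)).eval z) atTop (𝓝 (P.eval z)) := by
      have h4 := (tendsto_add_atTop_iff_nat s).2 heval
      refine h4.congr fun n => ?_
      rw [add_comm]
    simp only [eval_sub]
    exact ((h3.sub_const _).norm).div_const _
  refine le_of_tendsto hwm (Eventually.of_forall fun n => ?_)
  refine (wm_telescope d w Ps σ h s n z).trans ?_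
  apply mul_le_mul_of_nonneg_right _ (hw z).le
  have hs : Summable (fun k => σ (s + k)) := by
    have := (summable_nat_add_iff s).2 hσ
    refine this.congr fun k => ?_
    rw [add_comm]
  exact hs.sum_le_tsum _ (fun k _ => hσ0 _)

/-- the limit of a sequence of pairs -/
theorem seq_pair (d : ℕ) (w : ℂ → ℝ) (hw : ∀ z, 0 < w z) (hw2 : Integrable (fun z => w z ^ 2) mu) (Ps Qs : ℕ → ℂ[X])
    (hP : ∀ s, (Ps s).natDegree ≤ d) (hQ : ∀ s, (Qs s).natDegree ≤ d) (σ : ℕ → ℝ) (hσ0 : ∀ s, 0 ≤ σ s) (hσ : Summable σ)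
    (h1 : ∀ s z, wm d (Ps (s + 1) - Ps s) z ≤ σ s * w z) (h2 : ∀ s z, wm d (Qs (s + 1) - Qs s) z ≤ σ s * w z) :
    ∃ P Q : ℂ[X], P.natDegree ≤ d ∧ Q.natDegree ≤ d ∧ Tendsto (fun s => cvp d (Ps s) (Qs s)) atTop (𝓝 (cvp d P Q)) ∧
      (∀ s z, wm d (P - Ps s) z ≤ (∑' k, σ (s + k)) * w z) ∧ ∀ s z, wm d (Q - Qs s) z ≤ (∑' k, σ (s + k)) * w z := by
  obtain ⟨P, hPd, hPt, hPw⟩ := seq_one d w hw hw2 Ps hP σ hσ0 hσ h1
  obtain ⟨Q, hQd, hQt, hQw⟩ := seq_one d w hw hw2 Qs hQ σ hσ0 hσ h2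
  refine ⟨P, Q, hPd, hQd, ?_, hPw, hQw⟩
  unfold cvp
  have e1 : Tendsto (fun s => fun k : Fin (d + 1) => (Ps s).coeff (k : ℕ)) atTop (𝓝 (fun k : Fin (d + 1) => P.coeff (k : ℕ))) :=
    tendsto_pi_nhds.2 fun k => hPt k
  have e2 : Tendsto (fun s => fun k : Fin (d + 1) => (Qs s).coeff (k : ℕ)) atTop (𝓝 (fun k : Fin (d + 1) => Q.coeff (k : ℕ))) :=
    tendsto_pi_nhds.2 fun k => hQt k
  exact e1.prodMk_nhds e2

end Pool.H91.SR
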