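import Pool.Agent.H91.SR.Wor
import Pool.Agent.H91.SR.Cnt
import Pool.Agent.H44.SR.CVS
import Pool.Agent.H47.SR.Stm
import Pool.Agent.H84.SR2.Seq

/-!
SHARP RATE (MP_8f2e1c_an): the theorem, from the seven pieces.
-/

set_option autoImplicit false

open Polynomial

namespace Pool.H91.SR

open Pool.Agent.H84.SRT
open Pool.Agent.H85.LD (Nd)
open Pool.Agent.H44.Fatou (Hyp)

theorem sharp_core : Core := by
  have hA : (1 : ℝ) ≤ 100 * MM := by unfold MM; norm_num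
  have hO : OneStmt (100 * MM) := Pool.Agent.H47.SR.oneStmt le_rfl
  exact core hA (worstmt hA) hO (sta hA (cntstmt le_rfl) (Pool.Agent.H44.SR.cvdStmt _ le_rfl) hO
    (Pool.Agent.H47.SR.ratStmt le_rfl) (Pool.Agent.H47.SR.twoStmt le_rfl))

/-- the final words -/
theorem sharp_rate {ε : ℝ} (hε : 0 < ε) : ∃ C : ℝ, ∀ d : ℕ, 1 ≤ d → ∀ P Q : ℂ[X],
    P.natDegree ≤ d → Q.natDegree ≤ d → (P ≠ 0 ∨ Q ≠ 0) →
    ∃ P' Q' : ℂ[X], IsCoprime P' Q' ∧ max P'.natDegree Q'.natDegree = d ∧ Hyp P' Q' ∧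
      Nd d (P - P') + Nd d (Q - Q') ≤ C * (d : ℝ) ^ (-1 + ε) * (Nd d P + Nd d Q) :=
  words sharp_core hε

end Pool.H91.SR
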