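import Mathlib
import Pool.Agent.H85.LD.Lll
import Pool.Agent.H85.LD.NDefs
import Pool.Agent.H85.LD.Loc
import Pool.Agent.H85.LD.Net
import Pool.Agent.H85.LD.Box

/-!
SHARP RATE (MP_8f2e1c_an): the local lemma for letters on cells (AVOID).

`lll_cells`: the symmetric local lemma for events of the centres `b ∈ s`, the event of `b` depends on the letters of the
centres at scaled distance at most `T` from `b`.
`avoid`: letters `(c₁, c₂)` in the grid `{gz z / (2K) : z ∈ box K}²`, events `∑_c α₁(c) c₁ + α₂(c) c₂ ∈ S` with sets `S` of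
diameter at most `ρ A`, where `A` is at most the absolute value of one of the two own coefficients.
-/

set_option autoImplicit false

open Finset hiding box
open ComplexConjugate

namespace Pool.H91.SR

open Pool.Agent.H85.LD

private theorem avd_card {α : Type*} [DecidableEq α] (X : Finset α) (R : α → Prop)
    [DecidablePred R] :
    ((univ : Finset ↥X).filter (fun a => R a.1)).card = (X.filter R).card := by
  rw [← Finset.card_map (Function.Embedding.subtype _)]
  congr 1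
  ext x
  simp only [mem_map, mem_filter, mem_univ, true_and, Function.Embedding.coe_subtype,
    Subtype.exists, exists_and_right, exists_eq_right]
  constructor
  · rintro ⟨a, b⟩
    exact ⟨a, b⟩
  · rintro ⟨a, b⟩
    exact ⟨a, b⟩

open Classical in
/-- the local lemma for cells -/
theorem lll_cells {A : Type} (d : ℕ) (hd : 1 ≤ d) (s : Finset ℂ) (hs : Sep d s)
    (X : Finset A) (hX : X.Nonempty) (B : ℂ → (ℂ → A) → Prop) (T : ℝ)
    (hT : 0 ≤ T) (p : ℝ) (hp0 : 0 ≤ p)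
    (hdep : ∀ b F G, (∀ c ∈ s, √d * sg b c ≤ T → F c = G c) → B b F → B b G)
    (hp : ∀ b ∈ s, ∀ F, ((X.filter (fun x => B b (Function.update F b x))).card : ℝ) ≤ p * X.card)
    (h4 : 4 * p * (65 * (2 * T + 1) ^ 2) ≤ 1) :
    ∃ F : ℂ → A, (∀ c, F c ∈ X) ∧ ∀ b ∈ s, ¬ B b F := by
  obtain ⟨x0, hx0⟩ := hX
  let ex : (↥s → ↥X) → ℂ → A := fun f c => if h : c ∈ s then (f ⟨c, h⟩).1 else x0
  have hexm : ∀ f : ↥s → ↥X, ∀ c, ex f c ∈ X := by
    intro f c
    by_cases hc : c ∈ s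
    · simp only [ex, dif_pos hc]
      exact (f ⟨c, hc⟩).2
    · simp only [ex, dif_neg hc]
      exact hx0
  have hupd : ∀ (f : ↥s → ↥X) (b : ↥s) (a : ↥X),
      ex (Function.update f b a) = Function.update (ex f) b.1 a.1 := by
    intro f b a
    funext c
    by_cases hc : c = b.1
    · subst hc
      simp only [ex, dif_pos b.2, Function.update_self]
    · rw [Function.update_of_ne hc]
      simp only [ex]
      by_cases hcs : c ∈ s
      · rw [dif_pos hcs, dif_pos hcs, Function.update_of_ne]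
        intro h
        exact hc (congrArg Subtype.val h)
      · rw [dif_neg hcs, dif_neg hcs]
  have : Nonempty ↥X := ⟨⟨x0, hx0⟩⟩
  have hsqrt : 0 ≤ √(d : ℝ) := Real.sqrt_nonneg _
  have hLLL : ∃ f : ↥s → ↥X, ∀ b : ↥s, ¬ B b.1 (ex f) := by
    refine lll_sym (E := ↥s) (A := ↥X) (fun b => univ.filter (fun c => √d * sg b.1 c.1 ≤ T))
      (fun b f => B b.1 (ex f)) ?_ p ⌈64 * (2 * T + 1) ^ 2⌉₊ ?_ ?_ ?_ ?_
    · intro b f g hfg hf
      refine hdep b.1 (ex f) (ex g) ?_ hf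
      intro c hc hcT
      simp only [ex, dif_pos hc]
      rw [hfg ⟨c, hc⟩ (by simpa using hcT)]
    · rw [Nat.one_le_ceil_iff]
      have : (0 : ℝ) < 2 * T + 1 := by linarith
      positivity
    · intro b f
      have h1 := hp b.1 b.2 (ex f)
      have h2 := avd_card X (fun x => B b.1 (Function.update (ex f) b.1 x))
      have h3 : (univ : Finset ↥X).filter (fun a => B b.1 (ex (Function.update f b a))) =
          (univ : Finset ↥X).filter (fun a => B b.1 (Function.update (ex f) b.1 a.1)) := by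
        apply Finset.filter_congr
        intro a _
        rw [hupd]
      rw [Fintype.card_coe, h3, h2]
      exact h1
    · intro b
      have h1 : ((univ : Finset ↥s).filter (fun c => ¬ Disjoint
          (univ.filter (fun a : ↥s => √d * sg b.1 a.1 ≤ T))
          (univ.filter (fun a : ↥s => √d * sg c.1 a.1 ≤ T)))).card ≤
          ((univ : Finset ↥s).filter (fun c => √d * sg b.1 c.1 ≤ 2 * T)).card := by
        apply Finset.card_le_card
        intro c hc
        simp only [mem_filter, mem_univ, true_and] at hc ⊢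
        rw [Finset.not_disjoint_iff] at hc
        obtain ⟨a, ha1, ha2⟩ := hc
        simp only [mem_filter, mem_univ, true_and] at ha1 ha2
        have h2 := sg_tri b.1 a.1 c.1
        rw [sg_comm a.1 c.1] at h2
        have h3 := mul_le_mul_of_nonneg_left h2 hsqrt
        rw [mul_add] at h3
        linarith
      have h2 : ((univ : Finset ↥s).filter (fun c => √d * sg b.1 c.1 ≤ 2 * T)).card =
          (s.filter (fun c => √d * sg b.1 c ≤ 2 * T)).card :=
        avd_card s (fun c => √d * sg b.1 c ≤ 2 * T)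
      have h3 := net_card d hd s hs b.1 (2 * T) (by linarith)
      have h4 : ((s.filter (fun c => √d * sg b.1 c ≤ 2 * T)).card : ℝ) ≤
          (⌈64 * (2 * T + 1) ^ 2⌉₊ : ℝ) := by
        refine le_trans ?_ (h3.trans (Nat.le_ceil _))
        apply le_of_eq
        congr 2
      have h5 : (s.filter (fun c => √d * sg b.1 c ≤ 2 * T)).card ≤ ⌈64 * (2 * T + 1) ^ 2⌉₊ := by
        exact_mod_cast h4
      exact h1.trans (h2.le.trans h5)
    · have h1 : (⌈64 * (2 * T + 1) ^ 2⌉₊ : ℝ) ≤ 65 * (2 * T + 1) ^ 2 := by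
        have h2 := Nat.ceil_lt_add_one (R := ℝ) (a := 64 * (2 * T + 1) ^ 2) (by positivity)
        have h3 : (1 : ℝ) ≤ (2 * T + 1) ^ 2 := one_le_pow₀ (by linarith)
        linarith
      refine le_trans ?_ h4
      exact mul_le_mul_of_nonneg_left h1 (by positivity)
  obtain ⟨f, hf⟩ := hLLL
  exact ⟨ex f, hexm f, fun b hb => hf ⟨b, hb⟩⟩

/-- the letter of a pair of Gaussian integers -/
noncomputable def ltr (K : ℕ) (x : (ℤ × ℤ) × (ℤ × ℤ)) : ℂ × ℂ :=
  (((1 / 2 / (K : ℕ) : ℝ) : ℂ) * gz x.1, ((1 / 2 / (K : ℕ) : ℝ) : ℂ) * gz x.2)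

theorem gz_box_norm {K : ℕ} (hK : 1 ≤ K) {z : ℤ × ℤ} (hz : z ∈ box K) :
    ‖((1 / 2 / (K : ℕ) : ℝ) : ℂ) * gz z‖ ≤ 1 := by
  rw [mem_box] at hz
  have hK0 : (0 : ℝ) < K := by exact_mod_cast hK
  have h1 : |(z.1 : ℝ)| ≤ K := by exact_mod_cast hz.1
  have h2 : |(z.2 : ℝ)| ≤ K := by exact_mod_cast hz.2
  have h3 : ‖gz z‖ ≤ 2 * K := by
    unfold gz
    refine (norm_add_le _ _).trans ?_
    rw [norm_mul, Complex.norm_I, mul_one]
    have e1 : ‖(z.1 : ℂ)‖ = |(z.1 : ℝ)| := by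
      rw [← Complex.ofReal_intCast, Complex.norm_real, Real.norm_eq_abs]
    have e2 : ‖(z.2 : ℂ)‖ = |(z.2 : ℝ)| := by
      rw [← Complex.ofReal_intCast, Complex.norm_real, Real.norm_eq_abs]
    rw [e1, e2]
    linarith
  rw [norm_mul, Complex.norm_real, Real.norm_eq_abs, abs_of_pos (by positivity)]
  calc 1 / 2 / (K : ℝ) * ‖gz z‖ ≤ 1 / 2 / (K : ℝ) * (2 * K) := mul_le_mul_of_nonneg_left h3 (by positivity)
    _ = 1 := by field_simp

theorem ltr_norm {K : ℕ} (hK : 1 ≤ K) {x : (ℤ × ℤ) × (ℤ × ℤ)} (hx : x ∈ box K ×ˢ box K) :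
    ‖(ltr K x).1‖ ≤ 1 ∧ ‖(ltr K x).2‖ ≤ 1 := by
  rw [mem_product] at hx
  exact ⟨gz_box_norm hK hx.1, gz_box_norm hK hx.2⟩

/-- one coordinate: the number of letters with value in a small set -/
private theorem one_count {K : ℕ} (hK : 1 ≤ K) {ρ A : ℝ} (hρ : 0 < ρ) (hA : 0 < A) (hρK : 1 / 4 ≤ ρ * K)
    {a : ℂ} (ha : A ≤ ‖a‖) (w : ℂ) (S : Set ℂ) (hS : ∀ x ∈ S, ∀ y ∈ S, ‖x - y‖ ≤ ρ * A)
    [DecidablePred fun z : ℤ × ℤ => w + a * (((1 / 2 / (K : ℕ) : ℝ) : ℂ) * gz z) ∈ S] :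
    (((box K).filter (fun z => w + a * (((1 / 2 / (K : ℕ) : ℝ) : ℂ) * gz z) ∈ S)).card : ℝ) ≤
      16 * ρ ^ 2 * (box K).card := by
  classical
  rcases Finset.eq_empty_or_nonempty ((box K).filter (fun z => w + a * (((1 / 2 / (K : ℕ) : ℝ) : ℂ) * gz z) ∈ S)) with h | h
  · rw [h, card_empty, Nat.cast_zero]
    positivity
  · obtain ⟨z0, hz0⟩ := h
    rw [mem_filter] at hz0
    have ha0 : a ≠ 0 := by
      rintro rfl
      rw [norm_zero] at ha
      linarith
    have han : 0 < ‖a‖ := norm_pos_iff.2 ha0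
    obtain ⟨c, hc⟩ : ∃ c : ℂ, c = ((1 / 2 / (K : ℕ) : ℝ) : ℂ) * gz z0 := ⟨_, rfl⟩
    have h1 := box_disc (1 / 2) ρ K (by norm_num) hρ hK (by linarith) (box K) c
    have h2 : (box K).filter (fun z => w + a * (((1 / 2 / (K : ℕ) : ℝ) : ℂ) * gz z) ∈ S) ⊆
        (box K).filter (fun z => ‖((1 / 2 / (K : ℕ) : ℝ) : ℂ) * gz z - c‖ ≤ ρ) := by
      intro z hz
      rw [mem_filter] at hz ⊢
      refine ⟨hz.1, ?_⟩
      have h3 := hS _ hz.2 _ hz0.2
      rw [← hc, add_sub_add_left_eq_sub, ← mul_sub, norm_mul] at h3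
      have h4 : A * ‖((1 / 2 / (K : ℕ) : ℝ) : ℂ) * gz z - c‖ ≤ ‖a‖ * ‖((1 / 2 / (K : ℕ) : ℝ) : ℂ) * gz z - c‖ :=
        mul_le_mul_of_nonneg_right ha (norm_nonneg _)
      have h5 : A * ‖((1 / 2 / (K : ℕ) : ℝ) : ℂ) * gz z - c‖ ≤ A * ρ := by linarith
      exact le_of_mul_le_mul_left h5 hA
    have h3 : (((box K).filter (fun z => w + a * (((1 / 2 / (K : ℕ) : ℝ) : ℂ) * gz z) ∈ S)).card : ℝ) ≤
        (((box K).filter (fun z => ‖((1 / 2 / (K : ℕ) : ℝ) : ℂ) * gz z - c‖ ≤ ρ)).card : ℝ) := by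
      exact_mod_cast card_le_card h2
    refine h3.trans (h1.trans (le_of_eq ?_))
    ring

open Classical in
/-- both coordinates -/
theorem own_count {K : ℕ} (hK : 1 ≤ K) {ρ A : ℝ} (hρ : 0 < ρ) (hA : 0 < A) (hρK : 1 / 4 ≤ ρ * K)
    {a : ℂ × ℂ} (ha : A ≤ ‖a.1‖ ∨ A ≤ ‖a.2‖) (w : ℂ) (S : Set ℂ) (hS : ∀ x ∈ S, ∀ y ∈ S, ‖x - y‖ ≤ ρ * A) :
    (((box K ×ˢ box K).filter (fun x => w + (a.1 * (ltr K x).1 + a.2 * (ltr K x).2) ∈ S)).card : ℝ) ≤
      16 * ρ ^ 2 * (box K ×ˢ box K).card := by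
  rcases ha with ha | ha
  · have h1 := card_fib ((box K ×ˢ box K).filter (fun x => w + (a.1 * (ltr K x).1 + a.2 * (ltr K x).2) ∈ S))
      (fun x => x.2) (box K) (fun x hx => (mem_product.1 (mem_filter.1 hx).1).2) (16 * ρ ^ 2 * (box K).card) ?_
    · rw [card_product]
      push_cast
      linarith
    · intro y _
      have h2 := one_count hK hρ hA hρK ha (w + a.2 * (((1 / 2 / (K : ℕ) : ℝ) : ℂ) * gz y)) S hS
      refine le_trans ?_ h2
      have h3 : (((box K ×ˢ box K).filter (fun x => w + (a.1 * (ltr K x).1 + a.2 * (ltr K x).2) ∈ S)).filter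
          (fun x => x.2 = y)).card ≤ ((box K).filter (fun z => w + a.2 * (((1 / 2 / (K : ℕ) : ℝ) : ℂ) * gz y) +
            a.1 * (((1 / 2 / (K : ℕ) : ℝ) : ℂ) * gz z) ∈ S)).card := by
        refine card_le_card_of_injOn (fun x => x.1) ?_ ?_
        · intro x hx
          rw [mem_coe, mem_filter, mem_filter, mem_product] at hx
          rw [mem_coe, mem_filter]
          refine ⟨hx.1.1.1, ?_⟩
          have h4 := hx.1.2
          unfold ltr at h4
          rw [hx.2] at h4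
          have e : w + a.2 * (((1 / 2 / (K : ℕ) : ℝ) : ℂ) * gz y) + a.1 * (((1 / 2 / (K : ℕ) : ℝ) : ℂ) * gz x.1) =
              w + (a.1 * (((1 / 2 / (K : ℕ) : ℝ) : ℂ) * gz x.1) + a.2 * (((1 / 2 / (K : ℕ) : ℝ) : ℂ) * gz y)) := by ring
          rw [e]
          exact h4
        · intro x hx x' hx' h
          rw [mem_coe, mem_filter] at hx hx'
          exact Prod.ext h (hx.2.trans hx'.2.symm)
      exact_mod_cast h3
  · have h1 := card_fib ((box K ×ˢ box K).filter (fun x => w + (a.1 * (ltr K x).1 + a.2 * (ltr K x).2) ∈ S))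
      (fun x => x.1) (box K) (fun x hx => (mem_product.1 (mem_filter.1 hx).1).1) (16 * ρ ^ 2 * (box K).card) ?_
    · rw [card_product]
      push_cast
      linarith
    · intro y _
      have h2 := one_count hK hρ hA hρK ha (w + a.1 * (((1 / 2 / (K : ℕ) : ℝ) : ℂ) * gz y)) S hS
      refine le_trans ?_ h2
      have h3 : (((box K ×ˢ box K).filter (fun x => w + (a.1 * (ltr K x).1 + a.2 * (ltr K x).2) ∈ S)).filter
          (fun x => x.1 = y)).card ≤ ((box K).filter (fun z => w + a.1 * (((1 / 2 / (K : ℕ) : ℝ) : ℂ) * gz y) +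
            a.2 * (((1 / 2 / (K : ℕ) : ℝ) : ℂ) * gz z) ∈ S)).card := by
        refine card_le_card_of_injOn (fun x => x.2) ?_ ?_
        · intro x hx
          rw [mem_coe, mem_filter, mem_filter, mem_product] at hx
          rw [mem_coe, mem_filter]
          refine ⟨hx.1.1.2, ?_⟩
          have h4 := hx.1.2
          unfold ltr at h4
          rw [hx.2] at h4
          have e : w + a.1 * (((1 / 2 / (K : ℕ) : ℝ) : ℂ) * gz y) + a.2 * (((1 / 2 / (K : ℕ) : ℝ) : ℂ) * gz x.2) =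
              w + (a.1 * (((1 / 2 / (K : ℕ) : ℝ) : ℂ) * gz y) + a.2 * (((1 / 2 / (K : ℕ) : ℝ) : ℂ) * gz x.2)) := by ring
          rw [e]
          exact h4
        · intro x hx x' hx' h
          rw [mem_coe, mem_filter] at hx hx'
          exact Prod.ext (hx.2.trans hx'.2.symm) h
      exact_mod_cast h3

open Classical in
/-- AVOID: letters which avoid all targets -/
theorem avoid {ι : Type} (d : ℕ) (hd : 1 ≤ d) (s : Finset ℂ) (hs : Sep d s) (K M : ℕ) (hK : 1 ≤ K) (T : ℝ) (hT : 0 ≤ T)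
    (ρ : ℝ) (hρ : 0 < ρ) (hρK : 1 / 4 ≤ ρ * K) (I : ℂ → Finset ι) (hI : ∀ b ∈ s, (I b).card ≤ M)
    (α : ℂ → ι → ℂ → ℂ × ℂ) (S : ℂ → ι → Set ℂ) (A : ℂ → ι → ℝ)
    (hA : ∀ b ∈ s, ∀ i ∈ I b, 0 < A b i)
    (hown : ∀ b ∈ s, ∀ i ∈ I b, A b i ≤ ‖(α b i b).1‖ ∨ A b i ≤ ‖(α b i b).2‖)
    (hdiam : ∀ b ∈ s, ∀ i ∈ I b, ∀ x ∈ S b i, ∀ y ∈ S b i, ‖x - y‖ ≤ ρ * A b i)
    (h4 : 4 * (M * (16 * ρ ^ 2)) * (65 * (2 * T + 1) ^ 2) ≤ 1) :
    ∃ F : ℂ → ℂ × ℂ, (∀ c, ‖(F c).1‖ ≤ 1 ∧ ‖(F c).2‖ ≤ 1) ∧ ∀ b ∈ s, ∀ i ∈ I b,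
      ∑ c ∈ s.filter (fun c => √d * sg b c ≤ T), ((α b i c).1 * (F c).1 + (α b i c).2 * (F c).2) ∉ S b i := by
  obtain ⟨F, hF1, hF2⟩ := lll_cells d hd s hs (box K ×ˢ box K)
    ((box_nonempty K).product (box_nonempty K))
    (fun b F => ∃ i ∈ I b, ∑ c ∈ s.filter (fun c => √d * sg b c ≤ T),
      ((α b i c).1 * (ltr K (F c)).1 + (α b i c).2 * (ltr K (F c)).2) ∈ S b i) T hT (M * (16 * ρ ^ 2)) (by positivity)
    (by
      rintro b F G hFG ⟨i, hi, h⟩
      refine ⟨i, hi, ?_⟩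
      convert! h using 1
      refine sum_congr rfl fun c hc => ?_
      rw [mem_filter] at hc
      rw [hFG c hc.1 hc.2])
    (by
      intro b hb F
      have hmem : b ∈ s.filter (fun c => √d * sg b c ≤ T) := by
        rw [mem_filter]
        refine ⟨hb, ?_⟩
        have : sg b b = 0 := by unfold sg; simp
        rw [this, mul_zero]
        exact hT
      have h1 : (box K ×ˢ box K).filter (fun x => ∃ i ∈ I b, ∑ c ∈ s.filter (fun c => √d * sg b c ≤ T),
          ((α b i c).1 * (ltr K (Function.update F b x c)).1 + (α b i c).2 * (ltr K (Function.update F b x c)).2) ∈ S b i) ⊆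
          (I b).biUnion (fun i => (box K ×ˢ box K).filter (fun x =>
            (∑ c ∈ (s.filter (fun c => √d * sg b c ≤ T)).erase b, ((α b i c).1 * (ltr K (F c)).1 + (α b i c).2 * (ltr K (F c)).2)) +
              ((α b i b).1 * (ltr K x).1 + (α b i b).2 * (ltr K x).2) ∈ S b i)) := by
        intro x hx
        rw [mem_filter] at hx
        obtain ⟨hx, i, hi, h⟩ := hx
        rw [mem_biUnion]
        refine ⟨i, hi, ?_⟩
        rw [mem_filter]
        refine ⟨hx, ?_⟩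
        rw [← Finset.sum_erase_add _ _ hmem, Function.update_self] at h
        convert! h using 2
        refine sum_congr rfl fun c hc => ?_
        rw [mem_erase] at hc
        rw [Function.update_of_ne hc.1]
      have h2 := (card_le_card h1).trans card_biUnion_le
      have h3 : ((∑ i ∈ I b, ((box K ×ˢ box K).filter (fun x =>
            (∑ c ∈ (s.filter (fun c => √d * sg b c ≤ T)).erase b, ((α b i c).1 * (ltr K (F c)).1 + (α b i c).2 * (ltr K (F c)).2)) +
              ((α b i b).1 * (ltr K x).1 + (α b i b).2 * (ltr K x).2) ∈ S b i)).card : ℕ) : ℝ) ≤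
          ∑ i ∈ I b, 16 * ρ ^ 2 * (box K ×ˢ box K).card := by
        push_cast
        refine sum_le_sum fun i hi => ?_
        exact own_count hK hρ (hA b hb i hi) hρK (hown b hb i hi) _ (S b i) (hdiam b hb i hi)
      rw [sum_const, nsmul_eq_mul] at h3
      have h5 : (((box K ×ˢ box K).filter (fun x => ∃ i ∈ I b, ∑ c ∈ s.filter (fun c => √d * sg b c ≤ T),
          ((α b i c).1 * (ltr K (Function.update F b x c)).1 + (α b i c).2 * (ltr K (Function.update F b x c)).2) ∈ S b i)).card : ℝ) ≤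
          ((I b).card : ℝ) * (16 * ρ ^ 2 * (box K ×ˢ box K).card) := by
        refine le_trans ?_ h3
        exact_mod_cast h2
      refine le_trans (le_of_eq (by congr!)) (h5.trans ?_)
      have h6 : ((I b).card : ℝ) ≤ M := by exact_mod_cast hI b hb
      calc ((I b).card : ℝ) * (16 * ρ ^ 2 * (box K ×ˢ box K).card) ≤ M * (16 * ρ ^ 2 * (box K ×ˢ box K).card) :=
            mul_le_mul_of_nonneg_right h6 (by positivity)
        _ = _ := by ring)
    h4
  refine ⟨fun c => ltr K (F c), fun c => ltr_norm hK (hF1 c), ?_⟩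
  intro b hb i hi hmem
  exact hF2 b hb ⟨i, hi, hmem⟩

end Pool.H91.SR
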