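import Pool.Agent.H73.ST.Stat
import Pool.Agent.H91.SR.Kst

/-!
SHARP RATE (MP_8f2e1c_an): `WorStmt A` for every `A ≥ 1`, from the static stage (`H73/ST/Stat`).
-/

set_option autoImplicit false

open Polynomial Filter Topology

namespace Pool.H91.SR

open Pool.H70.SF Pool.Agent.H85.LD Pool.Agent.H70.PL Pool.Agent.H84.SRT Pool.Agent.H73.ST
open Pool.Agent.H47.SR (Fb Fb_diff)

private theorem fb_eq (d : ℕ) (P Q : ℂ[X]) (b : ℂ) : Fb (cvp d P Q) b = Fc d b P Q := by
  funext u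
  exact FF_sc d b P Q u

private theorem nsc_iff {F : ℂ → ℂ × ℂ} {u : ℂ} {S : ℝ} (h : Nsc F u S) : NSc F u S :=
  ⟨h.1, h.2.1, h.2.2.1, h.2.2.2⟩

theorem worstmt {A : ℝ} (hA : 1 ≤ A) : WorStmt A := by
  intro e he he4
  obtain ⟨C1, hC1, hst⟩ := static
  filter_upwards [log_pow_le (C1 * 3 ^ 20) 20 (η := e / 200) (by positivity), qn_ge hA he, qn_le hA he,
    LL_ge 1, eventually_ge_atTop 4] with d h1 h2 h3 h4 h5 s w P0 Q0 hs hc hw hP0 hQ0 hwP hwQ
  have hd0 : (0 : ℝ) < d := by exact_mod_cast (by omega : 0 < d)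
  have hd1 : (1 : ℝ) ≤ d := by exact_mod_cast (by omega : 1 ≤ d)
  have ht : 0 < tt e d := tt_pos (by omega)
  have ht1 : tt e d ≤ 1 := Real.rpow_le_one_of_one_le_of_nonpos hd1 (by linarith)
  have hq : 0 < qn A e d := (Real.rpow_pos_of_pos hd0 _).trans_le h2
  have hq1 : qn A e d ≤ 1 := h3.trans (Real.rpow_le_one_of_one_le_of_nonpos hd1 (by linarith))
  have hLL : LL d = Real.log d := rfl
  have hlt : Real.log (1 / tt e d) ≤ LL d := by
    unfold tt
    rw [one_div, Real.log_inv, Real.log_rpow hd0, hLL]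
    rw [hLL] at h4
    nlinarith
  have hlt0 : 0 ≤ Real.log (1 / tt e d) := Real.log_nonneg (by rw [one_le_div ht]; exact ht1)
  have hlq : Real.log (1 / qn A e d) ≤ LL d := by
    rw [one_div, Real.log_inv]
    have := Real.log_le_log (Real.rpow_pos_of_pos hd0 _) h2
    rw [Real.log_rpow hd0] at this
    rw [hLL] at h4 ⊢
    nlinarith
  have hlq0 : 0 ≤ Real.log (1 / qn A e d) := Real.log_nonneg (by rw [one_le_div hq]; exact hq1)
  have hcond : C1 * (1 + Real.log (1 / tt e d) + Real.log (1 / qn A e d)) ^ 20 * qn A e d ^ 2 ≤ 1 := by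
    have e1 : (1 + Real.log (1 / tt e d) + Real.log (1 / qn A e d)) ^ 20 ≤ (3 * LL d) ^ 20 :=
      pow_le_pow_left₀ (by linarith) (by linarith) 20
    have e2 : qn A e d ^ 2 ≤ (d : ℝ) ^ (-(e / 200)) := by
      have : qn A e d ^ 2 ≤ ((d : ℝ) ^ (-(e / 400))) ^ 2 := pow_le_pow_left₀ hq.le h3 2
      rw [rp_pow] at this
      refine this.trans (le_of_eq ?_)
      congr 1
      push_cast
      ring
    have e3 : (d : ℝ) ^ (e / 200) * (d : ℝ) ^ (-(e / 200)) = 1 := by
      rw [← Real.rpow_add hd0, add_neg_cancel, Real.rpow_zero]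
    calc C1 * (1 + Real.log (1 / tt e d) + Real.log (1 / qn A e d)) ^ 20 * qn A e d ^ 2 ≤
          C1 * (3 * LL d) ^ 20 * (d : ℝ) ^ (-(e / 200)) := by gcongr
      _ = C1 * 3 ^ 20 * LL d ^ 20 * (d : ℝ) ^ (-(e / 200)) := by ring
      _ ≤ (d : ℝ) ^ (e / 200) * (d : ℝ) ^ (-(e / 200)) := by gcongr
      _ = 1 := e3
  obtain ⟨P, Q, hP, hQ, hPn, hQn, hS⟩ := hst (tt e d) (qn A e d) ht ht1 hq hq1 hcond d h5 s hs w hw P0 Q0 hP0 hQ0
    hwP hwQ
  refine ⟨P, Q, hP, hQ, hPn, hQn, ⟨hs, hc, hw, ?_⟩⟩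
  intro b hb
  have hWb := hw.pos b
  have h6 := hS b hb
  refine ⟨Fb_diff _ _, ?_, ?_, ?_⟩
  · intro u hu
    rw [fb_eq]
    have hP2 : ∀ z, wm d P z ≤ 2 * w z := by
      intro z
      have := wm_add_le d (P - P0) P0 z
      rw [sub_add_cancel] at this
      have h7 := hPn z
      have h8 := hwP z
      have h9 := hw.pos z
      nlinarith
    have hQ2 : ∀ z, wm d Q z ≤ 2 * w z := by
      intro z
      have := wm_add_le d (Q - Q0) Q0 z
      rw [sub_add_cancel] at this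
      have h7 := hQn z
      have h8 := hwQ z
      have h9 := hw.pos z
      nlinarith
    have h7 := Fc_size d (by omega) w hw b P Q hP hQ 2 (by norm_num) (fun z _ => hP2 z) (fun z _ => hQ2 z) u hu
    have h8 : nm (Fc d b P Q u) = nr (Fc d b P Q u) := rfl
    rw [h8]
    unfold MM
    refine h7.trans ?_
    nlinarith
  · intro u hu
    rw [fb_eq]
    have h7 := h6.low u hu
    have h8 : 0 ≤ nr (Fc d b P0 Q0 u) := nr_nonneg _
    have h9 : k1 A e d * tt e d * w b ≤ qn A e d ^ 2 * (nr (Fc d b P0 Q0 u) + tt e d * w b) := by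
      unfold k1
      have := mul_nonneg (pow_nonneg hq.le 2) h8
      linarith
    exact h9.trans h7
  · intro u S hu hN v hv
    rw [fb_eq] at hN ⊢
    exact h6.net u S hu (nsc_iff hN) v hv

end Pool.H91.SR
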